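import Pool.Agent.Q233.DP.Defs

/-!
# Local coordinates along an arc
-/

set_option autoImplicit false
open MeasureTheory Set Filter Topology Metric
open scoped ContDiff

namespace Pool.Agent.Q233.DP

lemma local_inv {f : ℝ → ℝ} (hf : ContDiff ℝ 2 f) {s0 : ℝ} (h0 : deriv f s0 ≠ 0) :
    ∃ (h : ℝ → ℝ) (r ε B : ℝ), 0 < r ∧ 0 < ε ∧ 0 ≤ B ∧ ContDiffOn ℝ 2 h (ball (f s0) r) ∧
      (∀ y ∈ ball (f s0) r, f (h y) = y) ∧ (∀ y ∈ ball (f s0) r, |deriv h y| ≤ B) ∧
      (∀ s, |s - s0| < ε → h (f s) = s) := by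
  have hd : HasDerivAt f (deriv f s0) s0 := (hf.differentiable (by norm_num) s0).hasDerivAt
  have hF := hd.hasFDerivAt_equiv h0
  have hn : (2 : WithTop ℕ∞) ≠ 0 := by norm_num
  set e := hf.contDiffAt.toOpenPartialHomeomorph f hF hn with he
  have hs : e.source ∈ 𝓝 s0 := e.open_source.mem_nhds (ContDiffAt.mem_toOpenPartialHomeomorph_source _ hF hn)
  have ht : e.target ∈ 𝓝 (f s0) := e.open_target.mem_nhds (ContDiffAt.image_mem_toOpenPartialHomeomorph_target _ hF hn)
  have hg : ContDiffAt ℝ 2 e.symm (f s0) := ContDiffAt.to_localInverse hf.contDiffAt hF hn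
  obtain ⟨u, hu, hgu⟩ := hg.contDiffOn (le_refl 2) (by simp)
  have hu' : u ∈ 𝓝 (f s0) := by simpa using hu
  obtain ⟨r, hr, hrs⟩ := Metric.mem_nhds_iff.1 (inter_mem hu' ht)
  obtain ⟨ε, hε, hεs⟩ := Metric.mem_nhds_iff.1 hs
  have hc1 : ContDiffOn ℝ 2 e.symm (ball (f s0) r) := hgu.mono (fun y hy => (hrs hy).1)
  have hdc : ContinuousOn (deriv e.symm) (ball (f s0) r) := hc1.continuousOn_deriv_of_isOpen isOpen_ball (by norm_num)
  have hcb : closedBall (f s0) (r / 2) ⊆ ball (f s0) r := closedBall_subset_ball (by linarith)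
  obtain ⟨B, hB⟩ := (isCompact_closedBall (f s0) (r/2)).exists_bound_of_continuousOn (hdc.mono hcb)
  have hb' : ball (f s0) (r/2) ⊆ ball (f s0) r := ball_subset_ball (by linarith)
  refine ⟨e.symm, r / 2, ε, B, by linarith, hε, (norm_nonneg _).trans (hB (f s0) (mem_closedBall_self (by linarith))), hc1.mono hb', fun y hy => ?_,
    fun y hy => hB y (ball_subset_closedBall hy), fun s hs => ?_⟩
  · exact e.right_inv (hrs (hb' hy)).2
  · exact e.left_inv (hεs (by rw [mem_ball, Real.dist_eq]; exact hs))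

/-- coordinate functions of the plane -/
def co (b : Bool) (x : ℝ × ℝ) : ℝ := if b then x.1 else x.2

/-- the other coordinate -/
lemma co_smooth {n : WithTop ℕ∞} (b : Bool) : ContDiff ℝ n (co b) := by
  cases b
  · have : co false = fun x : ℝ × ℝ => x.2 := by funext x; simp [co]
    rw [this]; exact contDiff_snd
  · have : co true = fun x : ℝ × ℝ => x.1 := by funext x; simp [co]
    rw [this]; exact contDiff_fst

/-- a local coordinate patch of an arc -/
structure Patch (γ : ℝ → ℝ × ℝ) where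
  O : Set (ℝ × ℝ)
  b : Bool
  h : ℝ → ℝ
  y0 : ℝ
  r : ℝ
  B : ℝ
  hB : 0 ≤ B
  open_O : IsOpen O
  bdd : Bornology.IsBounded O
  sub : ∀ x ∈ O, co b x ∈ ball y0 r
  smooth : ContDiffOn ℝ 2 h (ball y0 r)
  inj : InjOn h (ball y0 r)
  bound : ∀ y ∈ ball y0 r, |deriv h y| ≤ B
  inv : ∀ s ∈ Icc (0:ℝ) 1, γ s ∈ O → h (co b (γ s)) = s

lemma exists_patch {γ : ℝ → ℝ × ℝ} (hγ : IsArc γ) {s0 : ℝ} (hs0 : s0 ∈ Icc (0:ℝ) 1) : ∃ P : Patch γ, γ s0 ∈ P.O := by
  have hreg := hγ.reg s0 hs0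
  have hd : HasDerivAt γ (deriv γ s0) s0 := (hγ.smooth.differentiable (by norm_num) s0).hasDerivAt
  have h1 : HasDerivAt (fun s => (γ s).1) (deriv γ s0).1 s0 := hd.fst
  have h2 : HasDerivAt (fun s => (γ s).2) (deriv γ s0).2 s0 := hd.snd
  obtain ⟨b, hb⟩ : ∃ b : Bool, deriv (fun s => co b (γ s)) s0 ≠ 0 := by
    by_contra hcon
    push Not at hcon
    have a1 := hcon true
    have a2 := hcon false
    simp only [co, if_true, Bool.false_eq_true, if_false] at a1 a2
    rw [h1.deriv] at a1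
    rw [h2.deriv] at a2
    exact hreg (Prod.ext a1 a2)
  have hfs : ContDiff ℝ 2 (fun s => co b (γ s)) := (co_smooth b).comp hγ.smooth
  obtain ⟨h, r, ε, B, hr, hε, hB0, hc, hri, hB, hli⟩ := local_inv hfs hb
  set K : Set ℝ := {s | s ∈ Icc (0:ℝ) 1 ∧ ε ≤ |s - s0|} with hK
  have hKc : IsCompact K := by
    have : K = Icc (0:ℝ) 1 ∩ {s | ε ≤ |s - s0|} := rfl
    rw [this]
    exact isCompact_Icc.inter_right (isClosed_le continuous_const (continuous_id.sub continuous_const).abs)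
  have hKi : IsClosed (γ '' K) := (hKc.image hγ.smooth.continuous).isClosed
  have hns : γ s0 ∉ γ '' K := by
    rintro ⟨s, hs, hss⟩
    have := hγ.inj hs.1 hs0 hss
    rw [this] at hs
    have := hs.2
    rw [sub_self, abs_zero] at this
    linarith
  refine ⟨{ O := (co b ⁻¹' ball (co b (γ s0)) r) ∩ (γ '' K)ᶜ ∩ ball (γ s0) 1
            b := b, h := h, y0 := co b (γ s0), r := r, B := B, hB := hB0
            open_O := ((isOpen_ball.preimage (co_smooth (n := 2) b).continuous).inter hKi.isOpen_compl).inter isOpen_ball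
            bdd := isBounded_ball.subset inter_subset_right
            sub := fun x hx => hx.1.1
            smooth := hc
            inj := fun y hy y' hy' hyy => by
              rw [← hri y hy, ← hri y' hy', hyy]
            bound := hB
            inv := fun s hs hsO => by
              by_cases hse : |s - s0| < ε
              · exact hli s hse
              · exact absurd ⟨s, ⟨hs, not_lt.1 hse⟩, rfl⟩ hsO.1.2 }, ?_⟩
  exact ⟨⟨mem_ball_self hr, hns⟩, mem_ball_self one_pos⟩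

/-- a finite smooth partition of unity along the arc, subordinate to coordinate patches -/
theorem exists_partition {γ : ℝ → ℝ × ℝ} (hγ : IsArc γ) : ∃ (n : ℕ) (P : Fin n → Patch γ) (ρ : Fin n → ℝ × ℝ → ℝ),
    (∀ i, ContDiff ℝ ∞ (ρ i)) ∧ (∀ i, tsupport (ρ i) ⊆ (P i).O) ∧ (∀ i, HasCompactSupport (ρ i)) ∧
    (∀ i x, |ρ i x| ≤ 1) ∧ (∀ s ∈ Icc (0:ℝ) 1, ∑ i, ρ i (γ s) = 1) := by
  have hex : ∀ s : Icc (0:ℝ) 1, ∃ P : Patch γ, γ s ∈ P.O := fun s => exists_patch hγ s.2
  choose P hP using hex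
  have hcomp : IsCompact (γ '' Icc 0 1) := isCompact_Icc.image hγ.smooth.continuous
  obtain ⟨t, ht⟩ := hcomp.elim_finite_subcover (fun s : Icc (0:ℝ) 1 => (P s).O) (fun s => (P s).open_O) (by
    rintro _ ⟨s, hs, rfl⟩
    exact mem_iUnion.2 ⟨⟨s, hs⟩, hP ⟨s, hs⟩⟩)
  set n := t.card with hn
  let e := t.equivFin
  obtain ⟨f, hf⟩ := SmoothPartitionOfUnity.exists_isSubordinate (modelWithCornersSelf ℝ (ℝ × ℝ)) hcomp.isClosed
    (fun i : Fin n => (P (e.symm i : t)).O) (fun i => (P _).open_O) (by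
      intro x hx
      obtain ⟨s, hs, hxs⟩ := mem_iUnion₂.1 (ht hx)
      refine mem_iUnion.2 ⟨e ⟨s, hs⟩, ?_⟩
      rw [Equiv.symm_apply_apply]
      exact hxs)
  refine ⟨n, fun i => P (e.symm i : t), fun i => f i, fun i => (f i).contMDiff.contDiff, hf, fun i => ?_, fun i x => ?_, fun s hs => ?_⟩
  · exact HasCompactSupport.of_support_subset_isCompact ((P (e.symm i : t)).bdd.isCompact_closure)
      ((subset_tsupport _).trans ((hf i).trans subset_closure))
  · rw [abs_of_nonneg (f.nonneg i x)]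
    exact f.le_one i x
  · have := f.sum_eq_one (mem_image_of_mem γ hs)
    rwa [finsum_eq_sum_of_fintype] at this

end Pool.Agent.Q233.DP
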