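import Pool.Agent.Q233.DP.A

/-!
# Lifting functions on the arc to the plane with a Dirichlet integral bound
-/

set_option autoImplicit false
open MeasureTheory Set Filter Topology Metric
open scoped ContDiff ENNReal

namespace Pool.Agent.Q233.DP

/-- the primitive vanishing at zero -/
noncomputable def prim (g : ℝ → ℂ) (t : ℝ) : ℂ := ∫ s in (0:ℝ)..t, g s

lemma prim_hasDerivAt {g : ℝ → ℂ} (hg : Continuous g) (t : ℝ) : HasDerivAt (prim g) (g t) t :=
  intervalIntegral.integral_hasDerivAt_right (hg.intervalIntegrable _ _)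
    (hg.stronglyMeasurableAtFilter _ _) hg.continuousAt

lemma prim_contDiff {g : ℝ → ℂ} (hg : ContDiff ℝ 1 g) : ContDiff ℝ 2 (prim g) := by
  have h2 : (2 : WithTop ℕ∞) = 1 + 1 := by norm_num
  rw [h2, contDiff_succ_iff_deriv]
  refine ⟨fun t => (prim_hasDerivAt hg.continuous t).differentiableAt, by simp, ?_⟩
  have : deriv (prim g) = g := by funext t; exact (prim_hasDerivAt hg.continuous t).deriv
  rwa [this]

lemma prim_bound {g : ℝ → ℂ} (hg : Continuous g) (hs : tsupport g ⊆ Ioo 0 1) (t : ℝ) :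
    ‖prim g t‖ ^ 2 ≤ ∫ s, ‖g s‖ ^ 2 := by
  have hcs : HasCompactSupport g := HasCompactSupport.of_support_subset_isCompact isCompact_Icc
    ((subset_tsupport g).trans (hs.trans Ioo_subset_Icc_self))
  have hi : Integrable (fun s => ‖g s‖) := (hg.integrable_of_hasCompactSupport hcs).norm
  have hi2 : Integrable (fun s => ‖g s‖ ^ 2) := by
    refine (hg.norm.pow 2).integrable_of_hasCompactSupport ?_
    exact hcs.comp_left (g := fun z : ℂ => ‖z‖ ^ 2) (by simp)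
  have h0 : ∀ s, s ∉ Ioo (0:ℝ) 1 → g s = 0 := fun s hs' => image_eq_zero_of_notMem_tsupport (fun h => hs' (hs h))
  set m := ∫ s, ‖g s‖ with hm
  have h1 : ‖prim g t‖ ≤ m := by
    refine (intervalIntegral.norm_integral_le_integral_norm_uIoc).trans ?_
    exact setIntegral_le_integral hi (Eventually.of_forall fun s => norm_nonneg _)
  have hm1 : m = ∫ s in Ioo (0:ℝ) 1, ‖g s‖ := by
    rw [hm, setIntegral_eq_integral_of_forall_compl_eq_zero]
    intro s hs'
    rw [h0 s hs', norm_zero]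
  have hm2 : ∫ s, ‖g s‖ ^ 2 = ∫ s in Ioo (0:ℝ) 1, ‖g s‖ ^ 2 := by
    rw [setIntegral_eq_integral_of_forall_compl_eq_zero]
    intro s hs'
    rw [h0 s hs', norm_zero]
    norm_num
  have h2 : 0 ≤ ∫ s in Ioo (0:ℝ) 1, (‖g s‖ - m) ^ 2 := integral_nonneg (fun s => sq_nonneg _)
  have h3 : ∫ s in Ioo (0:ℝ) 1, (‖g s‖ - m) ^ 2 = (∫ s, ‖g s‖ ^ 2) - m ^ 2 := by
    have e : (fun s => (‖g s‖ - m) ^ 2) = fun s => (‖g s‖ ^ 2 - 2 * m * ‖g s‖) + m ^ 2 := by
      funext s; ring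
    have i1 : Integrable (fun s => ‖g s‖ ^ 2) (volume.restrict (Ioo (0:ℝ) 1)) := hi2.integrableOn
    have i2 : Integrable (fun s => 2 * m * ‖g s‖) (volume.restrict (Ioo (0:ℝ) 1)) := (hi.const_mul _).integrableOn
    have i3 : Integrable (fun s : ℝ => m ^ 2) (volume.restrict (Ioo (0:ℝ) 1)) := integrable_const _
    rw [e, integral_add (f := fun s => ‖g s‖ ^ 2 - 2 * m * ‖g s‖) (i1.sub i2) i3,
      integral_sub i1 i2, integral_const_mul, ← hm1, ← hm2]
    simp
    ring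
  have hm0 : 0 ≤ m := integral_nonneg (fun s => norm_nonneg _)
  nlinarith [norm_nonneg (prim g t)]

lemma subst_bound {γ : ℝ → ℝ × ℝ} (P : Patch γ) (g : ℝ → ℂ) :
    ∫⁻ y in ball P.y0 P.r, ENNReal.ofReal ((‖g (P.h y)‖ * |deriv P.h y|) ^ 2) ≤
      ENNReal.ofReal P.B * ∫⁻ s, ENNReal.ofReal (‖g s‖ ^ 2) := by
  have h1 : ∀ y ∈ ball P.y0 P.r, HasDerivWithinAt P.h (deriv P.h y) (ball P.y0 P.r) y := fun y hy =>
    (((P.smooth.contDiffAt (isOpen_ball.mem_nhds hy)).differentiableAt (by norm_num)).hasDerivAt).hasDerivWithinAt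
  have h2 := lintegral_image_eq_lintegral_abs_deriv_mul (measurableSet_ball) h1 P.inj
    (fun s => ENNReal.ofReal (‖g s‖ ^ 2))
  calc _ ≤ ∫⁻ y in ball P.y0 P.r, ENNReal.ofReal P.B * (ENNReal.ofReal |deriv P.h y| * ENNReal.ofReal (‖g (P.h y)‖ ^ 2)) := by
        refine setLIntegral_mono' measurableSet_ball (fun y hy => ?_)
        rw [← ENNReal.ofReal_mul (abs_nonneg _), ← ENNReal.ofReal_mul P.hB]
        refine ENNReal.ofReal_le_ofReal ?_
        have hb := P.bound y hy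
        calc (‖g (P.h y)‖ * |deriv P.h y|) ^ 2 = |deriv P.h y| * (|deriv P.h y| * ‖g (P.h y)‖ ^ 2) := by ring
          _ ≤ P.B * (|deriv P.h y| * ‖g (P.h y)‖ ^ 2) := by gcongr
    _ = ENNReal.ofReal P.B * ∫⁻ y in ball P.y0 P.r, (ENNReal.ofReal |deriv P.h y| * ENNReal.ofReal (‖g (P.h y)‖ ^ 2)) := by
        rw [lintegral_const_mul' _ _ ENNReal.ofReal_ne_top]
    _ = ENNReal.ofReal P.B * ∫⁻ s in P.h '' ball P.y0 P.r, ENNReal.ofReal (‖g s‖ ^ 2) := by rw [h2]
    _ ≤ _ := by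
        gcongr
        exact Measure.restrict_le_self

/-- Fubini bound on a patch -/
lemma patch_fubini {γ : ℝ → ℝ × ℝ} (P : Patch γ) : ∃ R : ℝ, 0 ≤ R ∧ ∀ F : ℝ → ℝ≥0∞,
    ∫⁻ x in P.O, F (co P.b x) ≤ ENNReal.ofReal R * ∫⁻ y in ball P.y0 P.r, F y := by
  obtain ⟨R, hR⟩ := P.bdd.subset_closedBall (0 : ℝ × ℝ)
  have hR' : ∀ x ∈ P.O, |x.1| ≤ R ∧ |x.2| ≤ R := by
    intro x hx
    have := hR hx
    rw [mem_closedBall, dist_zero_right, Prod.norm_def] at this
    exact max_le_iff.1 this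
  refine ⟨2 * |R|, by positivity, fun F => ?_⟩
  have hvol : volume (Icc (-R) R) ≤ ENNReal.ofReal (2 * |R|) := by
    rw [Real.volume_Icc]
    refine ENNReal.ofReal_le_ofReal ?_
    have := le_abs_self R
    linarith
  cases hb : P.b
  · have hsub : P.O ⊆ (Icc (-R) R) ×ˢ (ball P.y0 P.r) := by
      intro x hx
      refine ⟨abs_le.1 (hR' x hx).1, ?_⟩
      have := P.sub x hx
      rw [hb] at this
      simpa [co] using this
    calc ∫⁻ x in P.O, F (co false x) ≤ ∫⁻ x in (Icc (-R) R) ×ˢ (ball P.y0 P.r), F (co false x) := lintegral_mono_set hsub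
      _ ≤ ∫⁻ a in Icc (-R) R, ∫⁻ y in ball P.y0 P.r, F y := by
          rw [Measure.volume_eq_prod, ← Measure.prod_restrict]
          exact lintegral_prod_le _
      _ = (∫⁻ y in ball P.y0 P.r, F y) * volume (Icc (-R) R) := by rw [lintegral_const, Measure.restrict_apply_univ]
      _ ≤ _ := by rw [mul_comm]; gcongr
  · have hsub : P.O ⊆ (ball P.y0 P.r) ×ˢ (Icc (-R) R) := by
      intro x hx
      refine ⟨?_, abs_le.1 (hR' x hx).2⟩
      have := P.sub x hx
      rw [hb] at this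
      simpa [co] using this
    calc ∫⁻ x in P.O, F (co true x) ≤ ∫⁻ x in (ball P.y0 P.r) ×ˢ (Icc (-R) R), F (co true x) := lintegral_mono_set hsub
      _ ≤ ∫⁻ y in ball P.y0 P.r, ∫⁻ a in Icc (-R) R, F y := by
          rw [Measure.volume_eq_prod, ← Measure.prod_restrict]
          exact lintegral_prod_le _
      _ ≤ ∫⁻ y in ball P.y0 P.r, ENNReal.ofReal (2 * |R|) * F y := by
          refine lintegral_mono (fun y => ?_)
          rw [lintegral_const, Measure.restrict_apply_univ, mul_comm]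
          gcongr
      _ = _ := by rw [lintegral_const_mul' _ _ ENNReal.ofReal_ne_top]

/-- the continuous linear coordinate -/
noncomputable def coL (b : Bool) : ℝ × ℝ →L[ℝ] ℝ := if b then ContinuousLinearMap.fst ℝ ℝ ℝ else ContinuousLinearMap.snd ℝ ℝ ℝ

lemma coL_apply (b : Bool) (x : ℝ × ℝ) : coL b x = co b x := by
  cases b <;> simp [coL, co]

lemma coL_norm (b : Bool) : ‖coL b‖ ≤ 1 := by
  cases b
  · simp [coL]
  · simp [coL]

lemma co_hasFDerivAt (b : Bool) (x : ℝ × ℝ) : HasFDerivAt (co b) (coL b) x := by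
  have : co b = coL b := by funext y; exact (coL_apply b y).symm
  rw [this]
  exact (coL b).hasFDerivAt

/-- one piece of the lift -/
noncomputable def piece {γ : ℝ → ℝ × ℝ} (P : Patch γ) (ρ : ℝ × ℝ → ℝ) (g : ℝ → ℂ) (x : ℝ × ℝ) : ℂ :=
  ρ x • prim g (P.h (co P.b x))

lemma piece_contDiff {γ : ℝ → ℝ × ℝ} (P : Patch γ) {ρ : ℝ × ℝ → ℝ} {g : ℝ → ℂ} (hρ : ContDiff ℝ ∞ ρ)
    (hs : tsupport ρ ⊆ P.O) (hg : ContDiff ℝ 1 g) : ContDiff ℝ 2 (piece P ρ g) := by
  rw [contDiff_iff_contDiffAt]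
  intro x
  by_cases hx : x ∈ tsupport ρ
  · have h1 : ContDiffAt ℝ 2 P.h (co P.b x) := P.smooth.contDiffAt (isOpen_ball.mem_nhds (P.sub x (hs hx)))
    have h2 : ContDiffAt ℝ 2 (fun y => P.h (co P.b y)) x := h1.comp x (co_smooth P.b).contDiffAt
    have h3 : ContDiffAt ℝ 2 (fun y => prim g (P.h (co P.b y))) x := (prim_contDiff hg).contDiffAt.comp x h2
    exact ((by exact_mod_cast contDiff_infty.1 hρ 2 : ContDiff ℝ 2 ρ).contDiffAt).smul h3
  · have : piece P ρ g =ᶠ[𝓝 x] fun _ => 0 := by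
      have h0 : ∀ᶠ y in 𝓝 x, ρ y = 0 := by
        filter_upwards [(isClosed_tsupport ρ).isOpen_compl.mem_nhds hx] with y hy
        exact image_eq_zero_of_notMem_tsupport hy
      filter_upwards [h0] with y hy
      simp [piece, hy]
    exact contDiffAt_const.congr_of_eventuallyEq this

lemma piece_fderiv_out {γ : ℝ → ℝ × ℝ} (P : Patch γ) {ρ : ℝ × ℝ → ℝ} {g : ℝ → ℂ} {x : ℝ × ℝ}
    (hx : x ∉ tsupport ρ) : fderiv ℝ (piece P ρ g) x = 0 := by
  have : piece P ρ g =ᶠ[𝓝 x] fun _ => 0 := by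
    have h0 : ∀ᶠ y in 𝓝 x, ρ y = 0 := by
      filter_upwards [(isClosed_tsupport ρ).isOpen_compl.mem_nhds hx] with y hy
      exact image_eq_zero_of_notMem_tsupport hy
    filter_upwards [h0] with y hy
    simp [piece, hy]
  rw [this.fderiv_eq]
  simp

lemma piece_fderiv_bound {γ : ℝ → ℝ × ℝ} (P : Patch γ) {ρ : ℝ × ℝ → ℝ} {g : ℝ → ℂ} (hρ : ContDiff ℝ ∞ ρ)
    (hg : Continuous g) (h1 : ∀ y, |ρ y| ≤ 1) {A : ℝ} (hA : ∀ y, ‖fderiv ℝ ρ y‖ ≤ A) {x : ℝ × ℝ} (hx : x ∈ P.O) :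
    ‖fderiv ℝ (piece P ρ g) x‖ ≤ ‖g (P.h (co P.b x))‖ * |deriv P.h (co P.b x)| + A * ‖prim g (P.h (co P.b x))‖ := by
  have hd1 : HasDerivAt P.h (deriv P.h (co P.b x)) (co P.b x) :=
    ((P.smooth.contDiffAt (isOpen_ball.mem_nhds (P.sub x hx))).differentiableAt (by norm_num)).hasDerivAt
  have hd2 : HasDerivAt (fun y => prim g (P.h y)) (deriv P.h (co P.b x) • g (P.h (co P.b x))) (co P.b x) :=
    (prim_hasDerivAt hg _).scomp _ hd1
  have hd3 := hd2.hasFDerivAt.comp x (co_hasFDerivAt P.b x)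
  have hρd : HasFDerivAt ρ (fderiv ℝ ρ x) x := (hρ.differentiable (by simp) x).hasFDerivAt
  have hd4 : HasFDerivAt (piece P ρ g) _ x := hρd.smul hd3
  rw [hd4.fderiv]
  refine (norm_add_le _ _).trans (add_le_add ?_ ?_)
  · rw [norm_smul, Real.norm_eq_abs]
    calc |ρ x| * _ ≤ 1 * ‖(ContinuousLinearMap.toSpanSingleton ℝ (deriv P.h (co P.b x) • g (P.h (co P.b x)))).comp (coL P.b)‖ := by
          gcongr
          exact h1 x
      _ ≤ ‖ContinuousLinearMap.toSpanSingleton ℝ (deriv P.h (co P.b x) • g (P.h (co P.b x)))‖ * ‖coL P.b‖ := by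
          rw [one_mul]
          exact ContinuousLinearMap.opNorm_comp_le _ _
      _ ≤ ‖deriv P.h (co P.b x) • g (P.h (co P.b x))‖ * 1 := by
          gcongr
          · rw [ContinuousLinearMap.norm_toSpanSingleton]
          · exact coL_norm _
      _ = _ := by
          rw [mul_one, norm_smul, Real.norm_eq_abs, mul_comm]
  · rw [ContinuousLinearMap.norm_smulRight_apply]
    gcongr
    exact hA x


lemma lint_sq {g : ℝ → ℂ} (hg : Continuous g) (hs : tsupport g ⊆ Ioo 0 1) :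
    ∫⁻ s, ENNReal.ofReal (‖g s‖ ^ 2) = ENNReal.ofReal (∫ s, ‖g s‖ ^ 2) := by
  have hcs : HasCompactSupport g := HasCompactSupport.of_support_subset_isCompact isCompact_Icc
    ((subset_tsupport g).trans (hs.trans Ioo_subset_Icc_self))
  have hi2 : Integrable (fun s => ‖g s‖ ^ 2) := by
    refine (hg.norm.pow 2).integrable_of_hasCompactSupport ?_
    exact hcs.comp_left (g := fun z : ℂ => ‖z‖ ^ 2) (by simp)
  rw [ofReal_integral_eq_lintegral_ofReal hi2 (Eventually.of_forall fun s => sq_nonneg _)]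

lemma piece_L2 {γ : ℝ → ℝ × ℝ} (P : Patch γ) {ρ : ℝ × ℝ → ℝ} (hρ : ContDiff ℝ ∞ ρ)
    (hs : tsupport ρ ⊆ P.O) (hc : HasCompactSupport ρ) (h1 : ∀ y, |ρ y| ≤ 1) :
    ∃ C : ℝ, 0 ≤ C ∧ ∀ g : ℝ → ℂ, ContDiff ℝ 1 g → tsupport g ⊆ Ioo 0 1 →
      ∫⁻ x, ENNReal.ofReal (‖fderiv ℝ (piece P ρ g) x‖ ^ 2) ≤ ENNReal.ofReal (C * ∫ s, ‖g s‖ ^ 2) := by
  obtain ⟨A, hA⟩ := (hρ.continuous_fderiv (by simp)).bounded_above_of_compact_support (hc.fderiv (𝕜 := ℝ))
  have hA0 : 0 ≤ A := (norm_nonneg _).trans (hA 0)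
  obtain ⟨R, hR0, hR⟩ := patch_fubini P
  have hvol : volume P.O ≠ ⊤ := P.bdd.measure_lt_top.ne
  refine ⟨2 * R * P.B + 2 * A ^ 2 * (volume P.O).toReal, by have := P.hB; positivity, fun g hg hsg => ?_⟩
  set N := ∫ s, ‖g s‖ ^ 2 with hN
  have hN0 : 0 ≤ N := integral_nonneg (fun s => sq_nonneg _)
  calc ∫⁻ x, ENNReal.ofReal (‖fderiv ℝ (piece P ρ g) x‖ ^ 2)
      = ∫⁻ x, P.O.indicator (fun x => ENNReal.ofReal (‖fderiv ℝ (piece P ρ g) x‖ ^ 2)) x := by
        refine lintegral_congr (fun x => ?_)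
        by_cases hx : x ∈ P.O
        · rw [indicator_of_mem hx]
        · rw [indicator_of_notMem hx, piece_fderiv_out P (fun h => hx (hs h))]
          simp
    _ = ∫⁻ x in P.O, ENNReal.ofReal (‖fderiv ℝ (piece P ρ g) x‖ ^ 2) := lintegral_indicator P.open_O.measurableSet _
    _ ≤ ∫⁻ x in P.O, (ENNReal.ofReal 2 * ENNReal.ofReal ((‖g (P.h (co P.b x))‖ * |deriv P.h (co P.b x)|) ^ 2) + ENNReal.ofReal (2 * A ^ 2 * N)) := by
        refine setLIntegral_mono' P.open_O.measurableSet (fun x hx => ?_)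
        rw [← ENNReal.ofReal_mul (by norm_num), ← ENNReal.ofReal_add (by positivity) (by positivity)]
        refine ENNReal.ofReal_le_ofReal ?_
        have hb := piece_fderiv_bound P hρ hg.continuous h1 hA hx
        have hp := prim_bound hg.continuous hsg (P.h (co P.b x))
        set a := ‖g (P.h (co P.b x))‖ * |deriv P.h (co P.b x)|
        set q := ‖prim g (P.h (co P.b x))‖
        have ha : 0 ≤ a := by positivity
        have hq : 0 ≤ q := norm_nonneg _
        calc ‖fderiv ℝ (piece P ρ g) x‖ ^ 2 ≤ (a + A * q) ^ 2 := by gcongr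
          _ ≤ 2 * a ^ 2 + 2 * A ^ 2 * q ^ 2 := by nlinarith [sq_nonneg (a - A * q)]
          _ ≤ _ := by gcongr
    _ = ENNReal.ofReal 2 * (∫⁻ x in P.O, ENNReal.ofReal ((‖g (P.h (co P.b x))‖ * |deriv P.h (co P.b x)|) ^ 2)) + ENNReal.ofReal (2 * A ^ 2 * N) * volume P.O := by
        rw [lintegral_add_right _ measurable_const, lintegral_const_mul' _ _ ENNReal.ofReal_ne_top, lintegral_const,
          Measure.restrict_apply_univ]
    _ ≤ ENNReal.ofReal 2 * (ENNReal.ofReal R * (ENNReal.ofReal P.B * ENNReal.ofReal N)) + ENNReal.ofReal (2 * A ^ 2 * N) * ENNReal.ofReal (volume P.O).toReal := by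
        rw [ENNReal.ofReal_toReal hvol]
        gcongr
        refine (hR (fun y => ENNReal.ofReal ((‖g (P.h y)‖ * |deriv P.h y|) ^ 2))).trans ?_
        gcongr
        rw [← lint_sq hg.continuous hsg]
        exact subst_bound P g
    _ = _ := by
        have := P.hB
        rw [← ENNReal.ofReal_mul this, ← ENNReal.ofReal_mul hR0, ← ENNReal.ofReal_mul (by norm_num), ← ENNReal.ofReal_mul (by positivity),
          ← ENNReal.ofReal_add (by positivity) (by positivity)]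
        congr 1
        ring

lemma fderiv_sq_supp {ψ : ℝ × ℝ → ℂ} (hψs : HasCompactSupport ψ) : HasCompactSupport (fun x => ‖fderiv ℝ ψ x‖ ^ 2) := by
  exact (hψs.fderiv (𝕜 := ℝ)).comp_left (g := fun z : (ℝ × ℝ →L[ℝ] ℂ) => ‖z‖ ^ 2) (by simp)

lemma fderiv_sq_cont {ψ : ℝ × ℝ → ℂ} (hψ : ContDiff ℝ 2 ψ) : Continuous (fun x => ‖fderiv ℝ ψ x‖ ^ 2) :=
  (hψ.continuous_fderiv (by norm_num)).norm.pow 2

lemma fderiv_sq_int {ψ : ℝ × ℝ → ℂ} (hψ : ContDiff ℝ 2 ψ) (hψs : HasCompactSupport ψ) :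
    Integrable (fun x => ‖fderiv ℝ ψ x‖ ^ 2) :=
  (fderiv_sq_cont hψ).integrable_of_hasCompactSupport (fderiv_sq_supp hψs)

/-- **The lift**: a test function on the arc is extended to the plane with a bound on its Dirichlet integral. -/
theorem exists_lift {γ : ℝ → ℝ × ℝ} (hγ : IsArc γ) : ∃ C : ℝ, 0 ≤ C ∧ ∀ g : ℝ → ℂ, ContDiff ℝ 1 g → tsupport g ⊆ Ioo 0 1 →
    ∃ ψ : ℝ × ℝ → ℂ, ContDiff ℝ 2 ψ ∧ HasCompactSupport ψ ∧ (∀ s ∈ Icc (0:ℝ) 1, ψ (γ s) = prim g s) ∧
      ∫ x, ‖fderiv ℝ ψ x‖ ^ 2 ≤ C * ∫ s, ‖g s‖ ^ 2 := by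
  obtain ⟨n, P, ρ, hρ, hs, hc, h1, hsum⟩ := exists_partition hγ
  have hex := fun i => piece_L2 (P i) (hρ i) (hs i) (hc i) (h1 i)
  choose C hC0 hC using hex
  refine ⟨n * ∑ i, C i, mul_nonneg (Nat.cast_nonneg _) (Finset.sum_nonneg fun i _ => hC0 i), fun g hg hsg => ?_⟩
  set N := ∫ s, ‖g s‖ ^ 2 with hN
  have hN0 : 0 ≤ N := integral_nonneg (fun s => sq_nonneg _)
  have hcd : ∀ i, ContDiff ℝ 2 (piece (P i) (ρ i) g) := fun i => piece_contDiff (P i) (hρ i) (hs i) hg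
  set ψ : ℝ × ℝ → ℂ := fun x => ∑ i, piece (P i) (ρ i) g x with hψ
  have hψc : ContDiff ℝ 2 ψ := ContDiff.sum (fun i _ => hcd i)
  have hψs : HasCompactSupport ψ := by
    have hK : IsCompact (⋃ i, tsupport (ρ i)) := isCompact_iUnion (fun i => hc i)
    refine HasCompactSupport.of_support_subset_isCompact hK ?_
    intro x hx
    by_contra hcon
    rw [mem_iUnion, not_exists] at hcon
    apply hx
    simp only [hψ]
    refine Finset.sum_eq_zero (fun i _ => ?_)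
    rw [piece, image_eq_zero_of_notMem_tsupport (hcon i), zero_smul]
  refine ⟨ψ, hψc, hψs, fun s hs' => ?_, ?_⟩
  · have : ∀ i, piece (P i) (ρ i) g (γ s) = ρ i (γ s) • prim g s := by
      intro i
      by_cases hx : γ s ∈ tsupport (ρ i)
      · rw [piece, (P i).inv s hs' (hs i hx)]
      · rw [piece, image_eq_zero_of_notMem_tsupport hx, zero_smul, zero_smul]
    simp only [hψ, this]
    rw [← Finset.sum_smul, hsum s hs', one_smul]
  · have hfd : ∀ x, fderiv ℝ ψ x = ∑ i, fderiv ℝ (piece (P i) (ρ i) g) x := by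
      intro x
      rw [hψ, fderiv_fun_sum (fun i _ => (hcd i).differentiable (by norm_num) x)]
    have hint : Integrable (fun x => ‖fderiv ℝ ψ x‖ ^ 2) := fderiv_sq_int hψc hψs
    have hle : ENNReal.ofReal (∫ x, ‖fderiv ℝ ψ x‖ ^ 2) ≤ ENNReal.ofReal (n * (∑ i, C i) * N) := by
      rw [ofReal_integral_eq_lintegral_ofReal hint (Eventually.of_forall fun s => sq_nonneg _)]
      calc ∫⁻ x, ENNReal.ofReal (‖fderiv ℝ ψ x‖ ^ 2)
          ≤ ∫⁻ x, ENNReal.ofReal n * ∑ i, ENNReal.ofReal (‖fderiv ℝ (piece (P i) (ρ i) g) x‖ ^ 2) := by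
            refine lintegral_mono (fun x => ?_)
            rw [← ENNReal.ofReal_sum_of_nonneg (fun i _ => sq_nonneg _), ← ENNReal.ofReal_mul (Nat.cast_nonneg _)]
            refine ENNReal.ofReal_le_ofReal ?_
            rw [hfd]
            calc ‖∑ i, fderiv ℝ (piece (P i) (ρ i) g) x‖ ^ 2 ≤ (∑ i, ‖fderiv ℝ (piece (P i) (ρ i) g) x‖) ^ 2 := by
                  gcongr
                  exact norm_sum_le _ _
              _ ≤ _ := by
                  have := sq_sum_le_card_mul_sum_sq (s := Finset.univ) (f := fun i => ‖fderiv ℝ (piece (P i) (ρ i) g) x‖)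
                  simpa using this
        _ = ENNReal.ofReal n * ∑ i, ∫⁻ x, ENNReal.ofReal (‖fderiv ℝ (piece (P i) (ρ i) g) x‖ ^ 2) := by
            rw [lintegral_const_mul' _ _ ENNReal.ofReal_ne_top, lintegral_finsetSum _ (fun i _ => ?_)]
            exact (((hcd i).continuous_fderiv (by norm_num)).norm.pow 2).measurable.ennreal_ofReal
        _ ≤ ENNReal.ofReal n * ∑ i, ENNReal.ofReal (C i * N) := by
            gcongr with i _
            exact hC i g hg hsg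
        _ = _ := by
            rw [← ENNReal.ofReal_sum_of_nonneg (fun i _ => mul_nonneg (hC0 i) hN0), ← ENNReal.ofReal_mul (Nat.cast_nonneg _),
              ← Finset.sum_mul, mul_assoc]
    have hnn : 0 ≤ n * (∑ i, C i) * N := mul_nonneg (mul_nonneg (Nat.cast_nonneg _) (Finset.sum_nonneg fun i _ => hC0 i)) hN0
    exact (ENNReal.ofReal_le_ofReal_iff hnn).1 hle

end Pool.Agent.Q233.DP
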