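import Pool.Agent.Q233.DP.B

/-!
# The jump is controlled by the gradient
-/

set_option autoImplicit false
open MeasureTheory Set Filter Topology Metric
open scoped ContDiff ENNReal ComplexConjugate InnerProductSpace

namespace Pool.Agent.Q233.DP

section pair
variable {α : Type*} [MeasurableSpace α] {μ : Measure α}

lemma toLp_norm_sq {k : α → ℂ} (hk : MemLp k 2 μ) : ‖hk.toLp k‖ ^ 2 = ∫ x, ‖k x‖ ^ 2 ∂μ := by
  have h1 : (‖hk.toLp k‖ ^ 2 : ℝ) = RCLike.re (⟪hk.toLp k, hk.toLp k⟫_ℂ) := (inner_self_eq_norm_sq (𝕜 := ℂ) _).symm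
  rw [h1, L2.inner_def]
  have h2 : ∫ a, ⟪(hk.toLp k : α → ℂ) a, (hk.toLp k : α → ℂ) a⟫_ℂ ∂μ = ∫ x, ((‖k x‖ ^ 2 : ℝ) : ℂ) ∂μ := by
    refine integral_congr_ae ?_
    filter_upwards [hk.coeFn_toLp] with x hx
    rw [hx, inner_self_eq_norm_sq_to_K]
    norm_cast
  rw [h2, integral_complex_ofReal]
  simp

lemma pair_le (F : Lp ℂ 2 μ) {k : α → ℂ} (hk : MemLp k 2 μ) :
    ‖∫ x, F x * k x ∂μ‖ ≤ ‖F‖ * Real.sqrt (∫ x, ‖k x‖ ^ 2 ∂μ) := by
  have hk' : MemLp (fun x => conj (k x)) 2 μ := hk.star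
  have h1 : ∫ x, F x * k x ∂μ = ⟪hk'.toLp _, F⟫_ℂ := by
    rw [L2.inner_def]
    refine integral_congr_ae ?_
    filter_upwards [hk'.coeFn_toLp] with x hx
    rw [hx, RCLike.inner_apply, Complex.conj_conj]
  rw [h1]
  refine (norm_inner_le_norm _ _).trans ?_
  rw [mul_comm]
  gcongr
  refine Real.le_sqrt_of_sq_le ?_
  rw [toLp_norm_sq]
  simp

end pair

lemma d1_eq (φ : ℝ × ℝ → ℂ) : d1 φ = fun x => fderiv ℝ φ x (1, 0) := rfl
lemma d2_eq (φ : ℝ × ℝ → ℂ) : d2 φ = fun x => fderiv ℝ φ x (0, 1) := rfl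

lemma d1_contDiff {φ : ℝ × ℝ → ℂ} {m n : WithTop ℕ∞} (h : ContDiff ℝ n φ) (hmn : m + 1 ≤ n) : ContDiff ℝ m (d1 φ) :=
  (h.fderiv_right hmn).clm_apply contDiff_const
lemma d2_contDiff {φ : ℝ × ℝ → ℂ} {m n : WithTop ℕ∞} (h : ContDiff ℝ n φ) (hmn : m + 1 ≤ n) : ContDiff ℝ m (d2 φ) :=
  (h.fderiv_right hmn).clm_apply contDiff_const

lemma d1_supp {φ : ℝ × ℝ → ℂ} (h : HasCompactSupport φ) : HasCompactSupport (d1 φ) :=
  (h.fderiv (𝕜 := ℝ)).comp_left (g := fun z : (ℝ × ℝ →L[ℝ] ℂ) => z (1, 0)) (by simp)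
lemma d2_supp {φ : ℝ × ℝ → ℂ} (h : HasCompactSupport φ) : HasCompactSupport (d2 φ) :=
  (h.fderiv (𝕜 := ℝ)).comp_left (g := fun z : (ℝ × ℝ →L[ℝ] ℂ) => z (0, 1)) (by simp)

lemma norm_d1_le (φ : ℝ × ℝ → ℂ) (x : ℝ × ℝ) : ‖d1 φ x‖ ≤ ‖fderiv ℝ φ x‖ := by
  have := (fderiv ℝ φ x).le_opNorm (1, 0)
  simpa [d1, Prod.norm_def] using this
lemma norm_d2_le (φ : ℝ × ℝ → ℂ) (x : ℝ × ℝ) : ‖d2 φ x‖ ≤ ‖fderiv ℝ φ x‖ := by
  have := (fderiv ℝ φ x).le_opNorm (0, 1)
  simpa [d2, Prod.norm_def] using this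

lemma d_comm {ψ : ℝ × ℝ → ℂ} (h : ContDiff ℝ 2 ψ) (x : ℝ × ℝ) : d1 (d2 ψ) x = d2 (d1 ψ) x := by
  have hs : IsSymmSndFDerivAt ℝ ψ x := h.contDiffAt.isSymmSndFDerivAt (by simp)
  have hd : DifferentiableAt ℝ (fderiv ℝ ψ) x := (h.fderiv_right (m := 1) (by norm_num)).differentiable (by norm_num) x
  have e1 : fderiv ℝ (fun y => fderiv ℝ ψ y (0, 1)) x (1, 0) = fderiv ℝ (fderiv ℝ ψ) x (1, 0) (0, 1) := by
    rw [fderiv_clm_apply hd (differentiableAt_const _)]
    simp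
  have e2 : fderiv ℝ (fun y => fderiv ℝ ψ y (1, 0)) x (0, 1) = fderiv ℝ (fderiv ℝ ψ) x (0, 1) (1, 0) := by
    rw [fderiv_clm_apply hd (differentiableAt_const _)]
    simp
  rw [d1, d2, d1_eq, d2_eq, e1, e2]
  exact hs _ _

lemma memLp_of {k : ℝ × ℝ → ℂ} (hc : Continuous k) (hs : HasCompactSupport k) : MemLp k 2 (volume : Measure (ℝ × ℝ)) :=
  hc.memLp_of_hasCompactSupport hs

/-- products of an element of `J` with a continuous function are integrable -/
lemma J_int (j : J) {k : ℝ → ℂ} (hk : Continuous k) : Integrable (fun s => j s * k s) (volume.restrict (Ioo (0:ℝ) 1)) := by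
  have hj : Integrable j (volume.restrict (Ioo (0:ℝ) 1)) := (Lp.memLp j).integrable (by norm_num)
  obtain ⟨C, hC⟩ := isCompact_Icc.exists_bound_of_continuousOn (s := Icc (0:ℝ) 1) hk.continuousOn
  refine hj.mul_bdd (c := C) hk.aestronglyMeasurable ?_
  exact (ae_restrict_mem measurableSet_Ioo).mono (fun s hs => hC s (Ioo_subset_Icc_self hs))

/-- **duality**: the jump tested with `(ψ ∘ γ)'` -/
lemma jump_pairing {γ : ℝ → ℝ × ℝ} (hγ : IsArc γ) {u G₁ G₂ : E} {j : J} (h : HasJump γ u G₁ G₂ j)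
    {ψ : ℝ × ℝ → ℂ} (hψ : ContDiff ℝ 2 ψ) (hψs : HasCompactSupport ψ) {g : ℝ → ℂ} (hg : Continuous g)
    (hl : ∀ s ∈ Icc (0:ℝ) 1, ψ (γ s) = prim g s) :
    ∫ s in Ioo (0:ℝ) 1, j s * g s = (∫ x, G₁ x * d2 ψ x) - ∫ x, G₂ x * d1 ψ x := by
  have h1 := (h (d2 ψ) (d2_contDiff hψ (by norm_num)) (d2_supp hψs)).1
  have h2 := (h (d1 ψ) (d1_contDiff hψ (by norm_num)) (d1_supp hψs)).2
  have h3 : ∫ x, (u x : ℂ) * d1 (d2 ψ) x = ∫ x, u x * d2 (d1 ψ) x := by
    refine integral_congr_ae (Eventually.of_forall fun x => ?_)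
    simp only [d_comm hψ x]
  rw [h1, h2] at h3
  have hγc : Continuous γ := hγ.smooth.continuous
  have hγd : Continuous (deriv γ) := hγ.smooth.continuous_deriv (by norm_num)
  have c1 : Continuous (d1 ψ) := (d1_contDiff (m := 1) hψ (by norm_num)).continuous
  have c2 : Continuous (d2 ψ) := (d2_contDiff (m := 1) hψ (by norm_num)).continuous
  have i1 : Integrable (fun s => j s * (d1 ψ (γ s) * ((deriv γ s).1 : ℂ))) (volume.restrict (Ioo (0:ℝ) 1)) :=
    J_int j ((c1.comp hγc).mul (Complex.continuous_ofReal.comp (continuous_fst.comp hγd)))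
  have i2 : Integrable (fun s => j s * (d2 ψ (γ s) * ((deriv γ s).2 : ℂ))) (volume.restrict (Ioo (0:ℝ) 1)) :=
    J_int j ((c2.comp hγc).mul (Complex.continuous_ofReal.comp (continuous_snd.comp hγd)))
  have h4 : ∫ s in Ioo (0:ℝ) 1, j s * g s = ∫ s in Ioo (0:ℝ) 1, (j s * (d1 ψ (γ s) * ((deriv γ s).1 : ℂ)) + j s * (d2 ψ (γ s) * ((deriv γ s).2 : ℂ))) := by
    refine setIntegral_congr_fun measurableSet_Ioo (fun s hs => ?_)
    have hd : HasDerivAt γ (deriv γ s) s := (hγ.smooth.differentiable (by norm_num) s).hasDerivAt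
    have hdψ : HasFDerivAt ψ (fderiv ℝ ψ (γ s)) (γ s) := (hψ.differentiable (by norm_num) (γ s)).hasFDerivAt
    have hc : HasDerivAt (fun t => ψ (γ t)) (fderiv ℝ ψ (γ s) (deriv γ s)) s := hdψ.comp_hasDerivAt s hd
    have he : (fun t => ψ (γ t)) =ᶠ[𝓝 s] prim g := by
      filter_upwards [Icc_mem_nhds hs.1 hs.2] with t ht using hl t ht
    have hu := (he.hasDerivAt_iff.1 hc).unique (prim_hasDerivAt hg s)
    have hsplit : deriv γ s = (deriv γ s).1 • ((1:ℝ), (0:ℝ)) + (deriv γ s).2 • ((0:ℝ), (1:ℝ)) := by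
      ext <;> simp
    simp only [← hu]
    rw [hsplit, map_add, map_smul, map_smul]
    simp only [d1, d2, Complex.real_smul]
    simp
    ring
  rw [h4, integral_add i1 i2]
  have e1 : ∀ s, (j s : ℂ) * d2 ψ (γ s) * ((deriv γ s).2 : ℂ) = j s * (d2 ψ (γ s) * ((deriv γ s).2 : ℂ)) := fun s => by ring
  have e2 : ∀ s, (j s : ℂ) * d1 ψ (γ s) * ((deriv γ s).1 : ℂ) = j s * (d1 ψ (γ s) * ((deriv γ s).1 : ℂ)) := fun s => by ring
  simp only [e1, e2] at h3
  linear_combination h3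

/-- test functions in the open unit interval -/
def testSub : Submodule ℂ J where
  carrier := {s | ∃ g : ℝ → ℂ, ContDiff ℝ ∞ g ∧ tsupport g ⊆ Ioo 0 1 ∧ (s : ℝ → ℂ) =ᵐ[volume.restrict (Ioo (0:ℝ) 1)] g}
  add_mem' := by
    rintro a b ⟨g, hg, hgs, hga⟩ ⟨k, hk, hks, hkb⟩
    refine ⟨fun s => g s + k s, hg.add hk, (tsupport_add g k).trans (union_subset hgs hks), ?_⟩
    filter_upwards [Lp.coeFn_add a b, hga, hkb] with s h1 h2 h3
    rw [h1, Pi.add_apply, h2, h3]
  zero_mem' := by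
    refine ⟨fun _ => 0, contDiff_const, ?_, ?_⟩
    · have : tsupport (fun _ : ℝ => (0:ℂ)) = ∅ := by
        rw [tsupport_eq_empty_iff]; rfl
      rw [this]
      exact empty_subset _
    · exact Lp.coeFn_zero _ _ _
  smul_mem' := by
    rintro c a ⟨g, hg, hgs, hga⟩
    refine ⟨fun s => c * g s, contDiff_const.mul hg, ?_, ?_⟩
    · refine (closure_mono ?_).trans hgs
      intro s hs
      rw [Function.mem_support] at hs ⊢
      exact right_ne_zero_of_mul hs
    · filter_upwards [Lp.coeFn_smul c a, hga] with s h1 h2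
      rw [h1, Pi.smul_apply, h2, smul_eq_mul]

lemma testSub_dense : Dense (testSub : Set J) := by
  rw [Submodule.dense_iff_topologicalClosure_eq_top, Submodule.topologicalClosure_eq_top_iff, Submodule.eq_bot_iff]
  intro f hf
  have hfi : Integrable f (volume.restrict (Ioo (0:ℝ) 1)) := (Lp.memLp f).integrable (by norm_num)
  have hz := isOpen_Ioo.ae_eq_zero_of_integral_contDiff_smul_eq_zero (U := Ioo (0:ℝ) 1) (f := f) (μ := volume.restrict (Ioo (0:ℝ) 1))
    (hfi.locallyIntegrable.locallyIntegrableOn _) (fun g hg hgc hgs => by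
      have hgL : MemLp (fun s => ((g s : ℝ) : ℂ)) 2 (volume.restrict (Ioo (0:ℝ) 1)) := by
        refine MemLp.restrict _ (Continuous.memLp_of_hasCompactSupport (Complex.continuous_ofReal.comp hg.continuous) ?_)
        exact hgc.comp_left (g := fun r : ℝ => (r : ℂ)) (by simp)
      have hmem : hgL.toLp _ ∈ testSub := by
        refine ⟨fun s => ((g s : ℝ) : ℂ), Complex.ofRealCLM.contDiff.comp hg, ?_, hgL.coeFn_toLp⟩
        refine (closure_mono ?_).trans hgs
        intro s hs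
        rw [Function.mem_support] at hs ⊢
        exact fun h => hs (by rw [h]; simp)
      have h0 := hf _ hmem
      rw [L2.inner_def] at h0
      rw [← h0]
      refine integral_congr_ae ?_
      filter_upwards [hgL.coeFn_toLp] with s hs
      rw [hs, RCLike.inner_apply, Complex.conj_ofReal, Complex.real_smul, mul_comm])
  refine (Lp.eq_zero_iff_ae_eq_zero).2 ?_
  filter_upwards [hz, ae_restrict_mem measurableSet_Ioo] with s h1 h2 using h1 h2

/-- **The jump is controlled by the gradient.** -/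
theorem jump_bound {γ : ℝ → ℝ × ℝ} (hγ : IsArc γ) : ∃ C : ℝ, 0 ≤ C ∧ ∀ (u G₁ G₂ : E) (j : J), HasJump γ u G₁ G₂ j →
    ‖j‖ ≤ C * (‖G₁‖ + ‖G₂‖) := by
  obtain ⟨C, hC0, hC⟩ := exists_lift hγ
  refine ⟨Real.sqrt C, Real.sqrt_nonneg _, fun u G₁ G₂ j h => ?_⟩
  set M := Real.sqrt C * (‖G₁‖ + ‖G₂‖) with hM
  have hkey : ∀ s : J, ‖⟪s, j⟫_ℂ‖ ≤ M * ‖s‖ := by
    intro s
    refine testSub_dense.induction (P := fun s : J => ‖⟪s, j⟫_ℂ‖ ≤ M * ‖s‖) ?_ ?_ s
    · rintro t ⟨g, hg, hgs, hgt⟩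
      have hgc : HasCompactSupport g := HasCompactSupport.of_support_subset_isCompact isCompact_Icc
        ((subset_tsupport g).trans (hgs.trans Ioo_subset_Icc_self))
      set g' : ℝ → ℂ := fun s => conj (g s) with hg'
      have hg'd : ContDiff ℝ 1 g' := by
        have : ContDiff ℝ 1 g := by exact_mod_cast contDiff_infty.1 hg 1
        exact Complex.conjCLE.contDiff.comp this
      have hg's : tsupport g' ⊆ Ioo 0 1 := by
        refine (closure_mono ?_).trans hgs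
        intro s hs
        rw [Function.mem_support] at hs ⊢
        exact fun h => hs (by rw [hg', ]; simp [h])
      obtain ⟨ψ, hψ, hψs, hl, hb⟩ := hC g' hg'd hg's
      have hp := jump_pairing hγ h hψ hψs hg'd.continuous hl
      have hN : ∫ s, ‖g' s‖ ^ 2 = ‖t‖ ^ 2 := by
        have hL : MemLp g 2 (volume.restrict (Ioo (0:ℝ) 1)) := MemLp.restrict _ (hg.continuous.memLp_of_hasCompactSupport hgc)
        have ht : t = hL.toLp g := by
          refine Lp.ext ?_
          filter_upwards [hgt, hL.coeFn_toLp] with s h1 h2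
          rw [h1, h2]
        rw [ht, toLp_norm_sq, setIntegral_eq_integral_of_forall_compl_eq_zero]
        · refine integral_congr_ae (Eventually.of_forall fun s => ?_)
          simp [hg']
        · intro s hs
          rw [image_eq_zero_of_notMem_tsupport (fun h => hs (hgs h))]
          simp
      have hin : ⟪t, j⟫_ℂ = ∫ s in Ioo (0:ℝ) 1, j s * g' s := by
        rw [L2.inner_def]
        refine integral_congr_ae ?_
        filter_upwards [hgt] with s hs
        rw [hs, RCLike.inner_apply]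
      have hd1 : ∫ x, ‖d1 ψ x‖ ^ 2 ≤ C * ‖t‖ ^ 2 := by
        rw [← hN]
        refine le_trans ?_ hb
        refine integral_mono_of_nonneg (Eventually.of_forall fun x => sq_nonneg _) ?_ (Eventually.of_forall fun x => ?_)
        · exact fderiv_sq_int hψ hψs
        · simp only
          gcongr
          exact norm_d1_le ψ x
      have hd2 : ∫ x, ‖d2 ψ x‖ ^ 2 ≤ C * ‖t‖ ^ 2 := by
        rw [← hN]
        refine le_trans ?_ hb
        refine integral_mono_of_nonneg (Eventually.of_forall fun x => sq_nonneg _) ?_ (Eventually.of_forall fun x => ?_)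
        · exact fderiv_sq_int hψ hψs
        · simp only
          gcongr
          exact norm_d2_le ψ x
      have hsq : Real.sqrt (C * ‖t‖ ^ 2) = Real.sqrt C * ‖t‖ := by
        rw [Real.sqrt_mul hC0, Real.sqrt_sq (norm_nonneg _)]
      have c1 : Continuous (d1 ψ) := (d1_contDiff (m := 1) hψ (by norm_num)).continuous
      have c2 : Continuous (d2 ψ) := (d2_contDiff (m := 1) hψ (by norm_num)).continuous
      have p1 := pair_le G₁ (memLp_of c2 (d2_supp hψs))
      have p2 := pair_le G₂ (memLp_of c1 (d1_supp hψs))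
      show ‖⟪t, j⟫_ℂ‖ ≤ M * ‖t‖
      rw [hin, hp]
      calc _ ≤ ‖∫ x, G₁ x * d2 ψ x‖ + ‖∫ x, G₂ x * d1 ψ x‖ := norm_sub_le _ _
        _ ≤ ‖G₁‖ * (Real.sqrt C * ‖t‖) + ‖G₂‖ * (Real.sqrt C * ‖t‖) := by
            refine add_le_add (p1.trans ?_) (p2.trans ?_)
            · rw [← hsq]
              gcongr
            · rw [← hsq]
              gcongr
        _ = _ := by rw [hM]; ring
    · exact isClosed_le (continuous_inner.comp (continuous_id.prodMk continuous_const)).norm (continuous_const.mul continuous_norm)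
  have hj := hkey j
  have h1 : ‖⟪j, j⟫_ℂ‖ = ‖j‖ * ‖j‖ := by
    rw [inner_self_eq_norm_sq_to_K]
    simp [sq]
  rw [h1] at hj
  by_cases hz : ‖j‖ = 0
  · rw [hz]
    positivity
  · exact le_of_mul_le_mul_right hj (lt_of_le_of_ne (norm_nonneg _) (Ne.symm hz))

end Pool.Agent.Q233.DP
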