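import Mathlib

/-!
# The `δ'`-interaction Hamiltonian on a plane arc

The quadratic form domain `H¹(ℝ² ∖ Λ)` and the jump across `Λ` are described by the Gauss-Green
formula, the operator is the one associated with the form by the first representation theorem.
-/

set_option autoImplicit false
open MeasureTheory Set
open scoped ComplexConjugate

namespace Pool.Agent.Q233.DP

/-- `Λ = γ([0,1])` is a regular injective plane arc of class `C²`
(the values of `γ` outside `[0,1]` play no role). -/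
structure IsArc (γ : ℝ → ℝ × ℝ) : Prop where
  smooth : ContDiff ℝ 2 γ
  inj : InjOn γ (Icc 0 1)
  reg : ∀ s ∈ Icc (0:ℝ) 1, deriv γ s ≠ 0

/-- `L²(ℝ²;ℂ)` -/
abbrev E : Type := Lp ℂ 2 (volume : Measure (ℝ × ℝ))

/-- `L²((0,1);ℂ)`, functions of the parameter on the arc -/
abbrev J : Type := Lp ℂ 2 ((volume : Measure ℝ).restrict (Ioo (0:ℝ) 1))

/-- first partial derivative of a test function -/
noncomputable def d1 (φ : ℝ × ℝ → ℂ) (x : ℝ × ℝ) : ℂ := fderiv ℝ φ x (1, 0)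

/-- second partial derivative of a test function -/
noncomputable def d2 (φ : ℝ × ℝ → ℂ) (x : ℝ × ℝ) : ℂ := fderiv ℝ φ x (0, 1)

/-- `u` belongs to `H¹(ℝ² ∖ Λ)`, its gradient on `ℝ² ∖ Λ` is `(G₁, G₂)` and its jump across `Λ`
(value on the left of `γ` minus value on the right of `γ`, as a function of the parameter) is `j`:
the Gauss-Green formula `∫ u ∇φ = - ∫ G φ - ∫_Λ [u] φ ν ds` holds for all test functions on the
whole plane, where `ν ds = (-γ₂', γ₁') dt` is the normal pointing to the left of `γ`. -/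
def HasJump (γ : ℝ → ℝ × ℝ) (u G₁ G₂ : E) (j : J) : Prop :=
  ∀ φ : ℝ × ℝ → ℂ, ContDiff ℝ 1 φ → HasCompactSupport φ →
    (∫ x, u x * d1 φ x = -(∫ x, G₁ x * φ x)
      + ∫ s in Ioo (0:ℝ) 1, j s * φ (γ s) * ((deriv γ s).2 : ℂ)) ∧
    (∫ x, u x * d2 φ x = -(∫ x, G₂ x * φ x)
      - ∫ s in Ioo (0:ℝ) 1, j s * φ (γ s) * ((deriv γ s).1 : ℂ))

/-- the Euclidean speed `|γ'|`, so that `ds = speed γ t dt` -/
noncomputable def speed (γ : ℝ → ℝ × ℝ) (s : ℝ) : ℝ :=
  Real.sqrt ((deriv γ s).1 ^ 2 + (deriv γ s).2 ^ 2)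

/-- the sesquilinear form `∫ ∇u · conj ∇v - ω ∫_Λ [u] conj [v] ds`, in terms of the gradients and
the jumps of `u` and `v` -/
noncomputable def form (γ : ℝ → ℝ × ℝ) (ω : ℝ) (G₁ G₂ : E) (j : J) (H₁ H₂ : E) (k : J) : ℂ :=
  (∫ x, G₁ x * conj (H₁ x)) + (∫ x, G₂ x * conj (H₂ x))
    - (ω : ℂ) * ∫ s in Ioo (0:ℝ) 1, j s * conj (k s) * (speed γ s : ℂ)

/-- `u` is in the domain of the operator associated with the form and is mapped to `f`:
`u` is in the form domain and `h[u,v] = ⟨f,v⟩` for all `v` in the form domain. -/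
def InOp (γ : ℝ → ℝ × ℝ) (ω : ℝ) (u f : E) : Prop :=
  ∃ (G₁ G₂ : E) (j : J), HasJump γ u G₁ G₂ j ∧
    ∀ (v H₁ H₂ : E) (k : J), HasJump γ v H₁ H₂ k →
      form γ ω G₁ G₂ j H₁ H₂ k = ∫ x, f x * conj (v x)

/-- `z` is in the resolvent set of the operator: `H u - z u = f` has for every `f` exactly one
solution `u`, and `‖u‖ ≤ C ‖f‖` -/
def InResolvent (γ : ℝ → ℝ × ℝ) (ω : ℝ) (z : ℂ) : Prop :=
  (∀ f : E, ∃! u : E, InOp γ ω u (f + z • u)) ∧
    ∃ C : ℝ, ∀ f u : E, InOp γ ω u (f + z • u) → ‖u‖ ≤ C * ‖f‖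

/-- the spectrum of the operator -/
def spec (γ : ℝ → ℝ × ℝ) (ω : ℝ) : Set ℂ := {z | ¬ InResolvent γ ω z}

end Pool.Agent.Q233.DP
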