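import Mathlib

/-!
# An abstract Lax-Milgram statement on a four-fold product
-/

set_option autoImplicit false
open Set Filter Topology
open scoped InnerProductSpace ComplexConjugate NNReal

namespace Pool.Agent.Q233.DP

/-- Lax-Milgram on a closed subspace -/
lemma lax {H : Type*} [NormedAddCommGroup H] [InnerProductSpace ℂ H] [CompleteSpace H]
    (V : Submodule ℂ H) (hV : IsClosed (V : Set H)) (A : H →L[ℂ] H) {c : ℝ} (hc : 0 < c)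
    (h : ∀ U ∈ V, c * ‖U‖ ^ 2 ≤ ‖⟪A U, U⟫_ℂ‖) (F : H) :
    (∃ U ∈ V, ∀ W ∈ V, ⟪W, A U⟫_ℂ = ⟪W, F⟫_ℂ) := by
  have : CompleteSpace V := hV.completeSpace_coe
  set T : V →L[ℂ] V := V.orthogonalProjectionOnto ∘L A ∘L V.subtypeL with hT
  have hin : ∀ (x : H) (W : V), ⟪(W : H), x⟫_ℂ = ⟪W, V.orthogonalProjectionOnto x⟫_ℂ := by
    intro x W
    rw [Submodule.inner_orthogonalProjectionOnto_eq_of_mem_left]
  have hun : IsUnit T := by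
    refine ContinuousLinearMap.isUnit_of_forall_le_norm_inner_map T (c := ⟨c, hc.le⟩) hc (fun x => ?_)
    have h1 := h x x.2
    have h2 : ⟪T x, x⟫_ℂ = ⟪A x, (x : H)⟫_ℂ := by
      rw [← inner_conj_symm, ← inner_conj_symm (A x) (x : H), hin]
      rfl
    rw [h2, mul_comm]
    exact h1
  obtain ⟨U, hU⟩ := (ContinuousLinearMap.isUnit_iff_bijective.1 hun).2 (V.orthogonalProjectionOnto F)
  refine ⟨U, U.2, fun W hW => ?_⟩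
  have h1 := hin (A U) ⟨W, hW⟩
  have h2 := hin F ⟨W, hW⟩
  simp only at h1 h2
  rw [h1, h2, ← hU]
  rfl

lemma num_coercive {z : ℂ} (hz : ¬ (0 ≤ z.re ∧ z.im = 0)) : ∃ δ : ℝ, 0 < δ ∧ ∀ h n : ℝ, 0 ≤ h → 0 ≤ n →
    δ * (h + n) ≤ ‖(h : ℂ) - z * n‖ := by
  obtain ⟨d, hd, hdn⟩ : ∃ d : ℝ, 0 < d ∧ ∀ h n : ℝ, 0 ≤ h → 0 ≤ n → d * n ≤ ‖(h : ℂ) - z * n‖ := by
    by_cases him : z.im = 0
    · have hre : z.re < 0 := by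
        by_contra hcon
        exact hz ⟨not_lt.1 hcon, him⟩
      refine ⟨-z.re, by linarith, fun h n hh hn => ?_⟩
      refine le_trans ?_ (Complex.re_le_norm _)
      simp
      nlinarith
    · refine ⟨|z.im|, abs_pos.2 him, fun h n hh hn => ?_⟩
      refine le_trans ?_ (Complex.abs_im_le_norm _)
      simp [abs_mul, abs_of_nonneg hn]
  refine ⟨d / (2 * (d + ‖z‖ + 1)), by positivity, fun h n hh hn => ?_⟩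
  have h1 := hdn h n hh hn
  have h2 : h - ‖z‖ * n ≤ ‖(h : ℂ) - z * n‖ := by
    have := norm_sub_norm_le (h : ℂ) (z * n)
    rw [norm_mul, Complex.norm_of_nonneg hh, Complex.norm_of_nonneg hn] at this
    exact this
  have hz0 := norm_nonneg z
  set Q := ‖(h : ℂ) - z * n‖
  rw [div_mul_eq_mul_div, div_le_iff₀ (by positivity)]
  nlinarith [mul_nonneg hd.le hh, mul_nonneg hz0 hn, mul_nonneg hd.le hn, norm_nonneg ((h : ℂ) - z * n),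
    mul_le_mul_of_nonneg_left h2 hd.le, mul_le_mul_of_nonneg_left h1 hz0]

section four

variable {X Y : Type*} [NormedAddCommGroup X] [InnerProductSpace ℂ X] [CompleteSpace X]
  [NormedAddCommGroup Y] [InnerProductSpace ℂ Y] [CompleteSpace Y]

/-- the four-fold Hilbert product -/
abbrev H4 (X Y : Type*) : Type _ := WithLp 2 (X × WithLp 2 (X × WithLp 2 (X × Y)))

/-- pairing of maps -/
noncomputable def mkL {Z A B : Type*} [NormedAddCommGroup Z] [InnerProductSpace ℂ Z]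
    [NormedAddCommGroup A] [InnerProductSpace ℂ A]
    [NormedAddCommGroup B] [InnerProductSpace ℂ B] (f : Z →L[ℂ] A) (g : Z →L[ℂ] B) : Z →L[ℂ] WithLp 2 (A × B) :=
  ((WithLp.prodContinuousLinearEquiv 2 ℂ A B).symm : A × B →L[ℂ] WithLp 2 (A × B)) ∘L (f.prod g)

omit [CompleteSpace X] [CompleteSpace Y] in
lemma norm4 (U : H4 X Y) : ‖U‖ ^ 2 = ‖U.fst‖ ^ 2 + (‖U.snd.fst‖ ^ 2 + (‖U.snd.snd.fst‖ ^ 2 + ‖U.snd.snd.snd‖ ^ 2)) := by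
  rw [WithLp.prod_norm_sq_eq_of_L2, WithLp.prod_norm_sq_eq_of_L2, WithLp.prod_norm_sq_eq_of_L2]

/-- the block operator -/
noncomputable def blk (z : ℂ) (S : Y →L[ℂ] Y) : H4 X Y →L[ℂ] H4 X Y :=
  mkL (-z • WithLp.fstL 2 ℂ X _)
    (mkL (WithLp.fstL 2 ℂ X _ ∘L WithLp.sndL 2 ℂ X _)
      (mkL (WithLp.fstL 2 ℂ X _ ∘L WithLp.sndL 2 ℂ X _ ∘L WithLp.sndL 2 ℂ X _)
        (S ∘L WithLp.sndL 2 ℂ X _ ∘L WithLp.sndL 2 ℂ X _ ∘L WithLp.sndL 2 ℂ X _)))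

omit [CompleteSpace X] [CompleteSpace Y] in
lemma inner_blk (z : ℂ) (S : Y →L[ℂ] Y) (W U : H4 X Y) : ⟪W, blk z S U⟫_ℂ =
    -z * ⟪W.fst, U.fst⟫_ℂ + (⟪W.snd.fst, U.snd.fst⟫_ℂ + (⟪W.snd.snd.fst, U.snd.snd.fst⟫_ℂ + ⟪W.snd.snd.snd, S U.snd.snd.snd⟫_ℂ)) := by
  rw [WithLp.prod_inner_apply, WithLp.prod_inner_apply, WithLp.prod_inner_apply]
  have h1 : (blk z S U).fst = (-z) • U.fst := rfl
  have h2 : (blk z S U).snd.fst = U.snd.fst := rfl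
  have h3 : (blk z S U).snd.snd.fst = U.snd.snd.fst := rfl
  have h4 : (blk z S U).snd.snd.snd = S U.snd.snd.snd := rfl
  have e : ⟪W.fst, (-z) • U.fst⟫_ℂ = -z * ⟪W.fst, U.fst⟫_ℂ := inner_smul_right _ _ _
  rw [← e]
  rfl

theorem solve4 (V : Submodule ℂ (H4 X Y)) (hV : IsClosed (V : Set (H4 X Y))) (S : Y →L[ℂ] Y) (s : Y → ℝ) {C M a : ℝ}
    (hC : 0 ≤ C) (hM : 0 ≤ M) (hs : ∀ j, ⟪j, S j⟫_ℂ = (s j : ℂ)) (hs0 : ∀ j, 0 ≤ s j) (hsM : ∀ j, s j ≤ M * ‖j‖ ^ 2)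
    (hb : ∀ U ∈ V, ‖U.snd.snd.snd‖ ≤ C * (‖U.snd.fst‖ + ‖U.snd.snd.fst‖))
    (ha : a ≤ 1 / (4 * M * C ^ 2 + 1)) {z : ℂ} (hz : ¬ (0 ≤ z.re ∧ z.im = 0)) :
    ∃ K : ℝ, 0 ≤ K ∧ (∀ f : X, ∃ U ∈ V, ∀ W ∈ V,
      (⟪W.snd.fst, U.snd.fst⟫_ℂ + ⟪W.snd.snd.fst, U.snd.snd.fst⟫_ℂ - (a : ℂ) * ⟪W.snd.snd.snd, S U.snd.snd.snd⟫_ℂ = ⟪W.fst, f + z • U.fst⟫_ℂ)) ∧
      (∀ f : X, ∀ U ∈ V, (∀ W ∈ V,
      (⟪W.snd.fst, U.snd.fst⟫_ℂ + ⟪W.snd.snd.fst, U.snd.snd.fst⟫_ℂ - (a : ℂ) * ⟪W.snd.snd.snd, S U.snd.snd.snd⟫_ℂ = ⟪W.fst, f + z • U.fst⟫_ℂ)) →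
      ‖U.fst‖ ≤ K * ‖f‖) := by
  obtain ⟨δ, hδ, hδn⟩ := num_coercive hz
  have hpos : 0 < 4 * M * C ^ 2 + 1 := by positivity
  -- lower bound for the real form
  have hlow : ∀ U ∈ V, (‖U.snd.fst‖ ^ 2 + ‖U.snd.snd.fst‖ ^ 2) / 2 ≤
      ‖U.snd.fst‖ ^ 2 + ‖U.snd.snd.fst‖ ^ 2 - a * s U.snd.snd.snd := by
    intro U hU
    have h1 := hb U hU
    have h2 : ‖U.snd.snd.snd‖ ^ 2 ≤ 2 * C ^ 2 * (‖U.snd.fst‖ ^ 2 + ‖U.snd.snd.fst‖ ^ 2) := by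
      calc ‖U.snd.snd.snd‖ ^ 2 ≤ (C * (‖U.snd.fst‖ + ‖U.snd.snd.fst‖)) ^ 2 := by gcongr
        _ ≤ _ := by nlinarith [mul_nonneg (sq_nonneg C) (sq_nonneg (‖U.snd.fst‖ - ‖U.snd.snd.fst‖))]
    have h3 := hs0 U.snd.snd.snd
    have h4 := hsM U.snd.snd.snd
    set q := ‖U.snd.fst‖ ^ 2 + ‖U.snd.snd.fst‖ ^ 2 with hq
    have hq0 : 0 ≤ q := by positivity
    have h5 : s U.snd.snd.snd ≤ M * (2 * C ^ 2 * q) := h4.trans (by gcongr)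
    by_cases ha0 : a ≤ 0
    · nlinarith
    · have h6 : a * s U.snd.snd.snd ≤ 1 / (4 * M * C ^ 2 + 1) * (M * (2 * C ^ 2 * q)) := by
        push Not at ha0
        gcongr
      have h7 : 1 / (4 * M * C ^ 2 + 1) * (M * (2 * C ^ 2 * q)) ≤ q / 2 := by
        rw [one_div, inv_mul_le_iff₀ hpos]
        nlinarith
      linarith
  set c := δ / (2 * (1 + 2 * C ^ 2) + 1) with hcdef
  have hc : 0 < c := by positivity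
  have hsum : ∀ U ∈ V, ‖U‖ ^ 2 ≤ (2 * (1 + 2 * C ^ 2) + 1) * ((‖U.snd.fst‖ ^ 2 + ‖U.snd.snd.fst‖ ^ 2 - a * s U.snd.snd.snd) + ‖U.fst‖ ^ 2) := by
    intro U hU
    have h0 := hlow U hU
    have h1 := hb U hU
    have h2 : ‖U.snd.snd.snd‖ ^ 2 ≤ 2 * C ^ 2 * (‖U.snd.fst‖ ^ 2 + ‖U.snd.snd.fst‖ ^ 2) := by
      calc ‖U.snd.snd.snd‖ ^ 2 ≤ (C * (‖U.snd.fst‖ + ‖U.snd.snd.fst‖)) ^ 2 := by gcongr
        _ ≤ _ := by nlinarith [mul_nonneg (sq_nonneg C) (sq_nonneg (‖U.snd.fst‖ - ‖U.snd.snd.fst‖))]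
    rw [norm4]
    set q := ‖U.snd.fst‖ ^ 2 + ‖U.snd.snd.fst‖ ^ 2 with hq
    set hh := q - a * s U.snd.snd.snd with hhdef
    have hq0 : 0 ≤ q := by positivity
    have hn0 : 0 ≤ ‖U.fst‖ ^ 2 := by positivity
    have hh0 : 0 ≤ hh := by linarith
    have hC2 : 0 ≤ C ^ 2 := sq_nonneg C
    calc ‖U.fst‖ ^ 2 + (‖U.snd.fst‖ ^ 2 + (‖U.snd.snd.fst‖ ^ 2 + ‖U.snd.snd.snd‖ ^ 2))
        = ‖U.fst‖ ^ 2 + (q + ‖U.snd.snd.snd‖ ^ 2) := by rw [hq]; ring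
      _ ≤ ‖U.fst‖ ^ 2 + (q + 2 * C ^ 2 * q) := by gcongr
      _ ≤ ‖U.fst‖ ^ 2 + (2 * hh + 2 * C ^ 2 * (2 * hh)) := by
          have : q ≤ 2 * hh := by linarith
          gcongr
      _ ≤ _ := by nlinarith [mul_nonneg hC2 hn0, mul_nonneg hC2 hh0]
  set A : H4 X Y →L[ℂ] H4 X Y := blk z (-(a : ℂ) • S) with hA
  have hAin : ∀ W U : H4 X Y, ⟪W, A U⟫_ℂ = -z * ⟪W.fst, U.fst⟫_ℂ + (⟪W.snd.fst, U.snd.fst⟫_ℂ + ⟪W.snd.snd.fst, U.snd.snd.fst⟫_ℂ - (a : ℂ) * ⟪W.snd.snd.snd, S U.snd.snd.snd⟫_ℂ) := by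
    intro W U
    rw [hA, inner_blk]
    have : ⟪W.snd.snd.snd, (-(a : ℂ) • S) U.snd.snd.snd⟫_ℂ = -(a : ℂ) * ⟪W.snd.snd.snd, S U.snd.snd.snd⟫_ℂ := by
      rw [smul_apply, inner_smul_right]
    rw [this]
    ring
  have hself : ∀ U : H4 X Y, ⟪U, A U⟫_ℂ = ((‖U.snd.fst‖ ^ 2 + ‖U.snd.snd.fst‖ ^ 2 - a * s U.snd.snd.snd : ℝ) : ℂ) - z * ((‖U.fst‖ ^ 2 : ℝ) : ℂ) := by
    intro U
    rw [hAin, hs, inner_self_eq_norm_sq_to_K, inner_self_eq_norm_sq_to_K, inner_self_eq_norm_sq_to_K]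
    push_cast
    simp
    ring
  have hcoer : ∀ U ∈ V, c * ‖U‖ ^ 2 ≤ ‖⟪A U, U⟫_ℂ‖ := by
    intro U hU
    rw [norm_inner_symm, hself]
    have h0 := hlow U hU
    have h1 := hδn (‖U.snd.fst‖ ^ 2 + ‖U.snd.snd.fst‖ ^ 2 - a * s U.snd.snd.snd) (‖U.fst‖ ^ 2)
      (le_trans (by positivity) h0) (by positivity)
    refine le_trans ?_ h1
    have h2 := hsum U hU
    rw [hcdef, div_mul_eq_mul_div, div_le_iff₀ (by positivity)]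
    calc δ * ‖U‖ ^ 2 ≤ δ * ((2 * (1 + 2 * C ^ 2) + 1) * ((‖U.snd.fst‖ ^ 2 + ‖U.snd.snd.fst‖ ^ 2 - a * s U.snd.snd.snd) + ‖U.fst‖ ^ 2)) := by gcongr
      _ = _ := by ring
  have hequiv : ∀ (f : X) (U W : H4 X Y), (⟪W, A U⟫_ℂ = ⟪W, (WithLp.toLp 2 (f, 0) : H4 X Y)⟫_ℂ ↔
      ⟪W.snd.fst, U.snd.fst⟫_ℂ + ⟪W.snd.snd.fst, U.snd.snd.fst⟫_ℂ - (a : ℂ) * ⟪W.snd.snd.snd, S U.snd.snd.snd⟫_ℂ = ⟪W.fst, f + z • U.fst⟫_ℂ) := by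
    intro f U W
    rw [hAin, WithLp.prod_inner_apply]
    have : ⟪(WithLp.ofLp W).snd, (WithLp.ofLp (WithLp.toLp 2 (f, (0 : WithLp 2 (X × WithLp 2 (X × Y)))) : H4 X Y)).snd⟫_ℂ = 0 := inner_zero_right _
    rw [this, add_zero, inner_add_right, inner_smul_right]
    have e : ⟪(WithLp.ofLp W).fst, (WithLp.ofLp (WithLp.toLp 2 (f, (0 : WithLp 2 (X × WithLp 2 (X × Y)))) : H4 X Y)).fst⟫_ℂ = ⟪W.fst, f⟫_ℂ := rfl
    rw [e]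
    constructor
    · intro h; linear_combination h
    · intro h; linear_combination h
  refine ⟨1 / c, by positivity, fun f => ?_, fun f U hU hW => ?_⟩
  · obtain ⟨U, hU, hW⟩ := lax V hV A hc hcoer (WithLp.toLp 2 (f, 0))
    exact ⟨U, hU, fun W hWV => (hequiv f U W).1 (hW W hWV)⟩
  · have h1 := (hequiv f U U).2 (hW U hU)
    have h2 := hcoer U hU
    rw [norm_inner_symm, h1] at h2
    have h3 : ⟪U, (WithLp.toLp 2 (f, 0) : H4 X Y)⟫_ℂ = ⟪U.fst, f⟫_ℂ := by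
      rw [WithLp.prod_inner_apply]
      have : ⟪(WithLp.ofLp U).snd, (WithLp.ofLp (WithLp.toLp 2 (f, (0 : WithLp 2 (X × WithLp 2 (X × Y)))) : H4 X Y)).snd⟫_ℂ = 0 := inner_zero_right _
      rw [this, add_zero]
      rfl
    rw [h3] at h2
    have h4 : ‖U.fst‖ ≤ ‖U‖ := WithLp.norm_fst_le _ _
    have h5 : ‖⟪U.fst, f⟫_ℂ‖ ≤ ‖U.fst‖ * ‖f‖ := norm_inner_le_norm _ _
    have h6 : c * ‖U.fst‖ ^ 2 ≤ ‖U.fst‖ * ‖f‖ := by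
      calc c * ‖U.fst‖ ^ 2 ≤ c * ‖U‖ ^ 2 := by gcongr
        _ ≤ _ := h2.trans h5
    rw [div_mul_eq_mul_div, one_mul, le_div_iff₀ hc]
    by_cases hz0 : ‖U.fst‖ = 0
    · rw [hz0, zero_mul]; exact norm_nonneg _
    · have hp : 0 < ‖U.fst‖ := lt_of_le_of_ne (norm_nonneg _) (Ne.symm hz0)
      refine le_of_mul_le_mul_left ?_ hp
      calc ‖U.fst‖ * (‖U.fst‖ * c) = c * ‖U.fst‖ ^ 2 := by ring
        _ ≤ _ := h6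

end four

end Pool.Agent.Q233.DP
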