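import Pool.Agent.Q233.DP.W

/-!
# The gradient and the jump are determined by the function, the operator is single valued
-/

set_option autoImplicit false
open MeasureTheory Set Filter Topology Metric
open scoped ContDiff ENNReal ComplexConjugate InnerProductSpace

namespace Pool.Agent.Q233.DP

lemma arc_closed {γ : ℝ → ℝ × ℝ} (hγ : IsArc γ) : IsClosed (γ '' Icc 0 1) :=
  (isCompact_Icc.image hγ.smooth.continuous).isClosed

lemma arc_null {γ : ℝ → ℝ × ℝ} (hγ : IsArc γ) : (volume : Measure (ℝ × ℝ)) (γ '' Icc 0 1) = 0 := by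
  rw [← hausdorffMeasure_prod_real]
  have h1 : dimH (γ '' Icc 0 1) ≤ 1 := by
    have := (hγ.smooth.of_le (by norm_num : (1 : WithTop ℕ∞) ≤ 2)).dimH_range_le
    refine (dimH_mono (image_subset_range γ (Icc 0 1))).trans (this.trans ?_)
    simp
  have h2 : dimH (γ '' Icc 0 1) < ((2 : NNReal) : ENNReal) := lt_of_le_of_lt h1 (by norm_num)
  have h3 := hausdorffMeasure_of_dimH_lt h2
  exact_mod_cast h3

/-- real test functions off the arc -/
lemma off_of_real {γ : ℝ → ℝ × ℝ} {g : ℝ × ℝ → ℝ} (hg : ContDiff ℝ ∞ g) (hc : HasCompactSupport g)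
    (hs : tsupport g ⊆ (γ '' Icc 0 1)ᶜ) : Off γ (fun x => (g x : ℂ)) := by
  have hts : tsupport (fun x => (g x : ℂ)) ⊆ tsupport g := by
    refine closure_mono ?_
    intro x hx
    rw [Function.mem_support] at hx ⊢
    exact fun h => hx (by rw [h]; simp)
  refine ⟨?_, ?_, fun t ht h => hs (hts h) (mem_image_of_mem γ ht)⟩
  · have : ContDiff ℝ 2 g := by exact_mod_cast contDiff_infty.1 hg 2
    exact Complex.ofRealCLM.contDiff.comp this
  · exact hc.comp_left (g := fun r : ℝ => (r : ℂ)) (by simp)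

lemma ae_zero_of_off {γ : ℝ → ℝ × ℝ} (hγ : IsArc γ) (F : E) (h : ∀ φ : ℝ × ℝ → ℂ, Off γ φ → ∫ x, F x * φ x = 0) : F = 0 := by
  have hli : LocallyIntegrable F (volume : Measure (ℝ × ℝ)) := (Lp.memLp F).locallyIntegrable (by norm_num)
  have hz := (arc_closed hγ).isOpen_compl.ae_eq_zero_of_integral_contDiff_smul_eq_zero (f := F) (μ := volume)
    (hli.locallyIntegrableOn _) (fun g hg hgc hgs => by
      rw [← h _ (off_of_real hg hgc hgs)]
      refine integral_congr_ae (Eventually.of_forall fun x => ?_)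
      simp only [Complex.real_smul, mul_comm])
  refine (Lp.eq_zero_iff_ae_eq_zero).2 ?_
  have hn : ∀ᵐ x : ℝ × ℝ, x ∈ (γ '' Icc 0 1)ᶜ := compl_mem_ae_iff.2 (arc_null hγ)
  filter_upwards [hz, hn] with x h1 h2 using h1 h2

theorem hasJump_unique {γ : ℝ → ℝ × ℝ} (hγ : IsArc γ) {u G₁ G₂ G₁' G₂' : E} {j j' : J} (h : HasJump γ u G₁ G₂ j)
    (h' : HasJump γ u G₁' G₂' j') : G₁ = G₁' ∧ G₂ = G₂' ∧ j = j' := by
  have hd := hasJump_sub hγ h h'
  rw [sub_self] at hd
  have hz0 : ∀ k : ℝ × ℝ → ℂ, ∫ x, (0 : E) x * k x = 0 := by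
    intro k
    refine integral_eq_zero_of_ae ?_
    filter_upwards [Lp.coeFn_zero ℂ 2 (volume : Measure (ℝ × ℝ))] with x hx
    rw [hx]
    simp
  have z0 : ∀ (w : ℝ → ℂ) (φ : ℝ × ℝ → ℂ), Off γ φ → ∫ s in Ioo (0:ℝ) 1, (j - j' : J) s * φ (γ s) * w s = 0 := by
    intro w φ hφ
    refine setIntegral_eq_zero_of_forall_eq_zero (fun s hs => ?_)
    rw [image_eq_zero_of_notMem_tsupport (hφ.o s (Ioo_subset_Icc_self hs))]
    simp
  have g1 : G₁ - G₁' = 0 := ae_zero_of_off hγ _ (fun φ hφ => by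
    have h1 := (hd φ (hφ.s.of_le (by norm_num)) hφ.c).1
    rw [hz0, z0 (fun s => ((deriv γ s).2 : ℂ)) φ hφ, add_zero] at h1
    exact neg_eq_zero.1 h1.symm)
  have g2 : G₂ - G₂' = 0 := ae_zero_of_off hγ _ (fun φ hφ => by
    have h1 := (hd φ (hφ.s.of_le (by norm_num)) hφ.c).2
    rw [hz0, z0 (fun s => ((deriv γ s).1 : ℂ)) φ hφ, sub_zero] at h1
    exact neg_eq_zero.1 h1.symm)
  obtain ⟨C, hC, hCj⟩ := jump_bound hγ
  have hj := hCj _ _ _ _ hd
  rw [g1, g2, norm_zero, add_zero, mul_zero] at hj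
  exact ⟨sub_eq_zero.1 g1, sub_eq_zero.1 g2, sub_eq_zero.1 (norm_le_zero_iff.1 hj)⟩

theorem inOp_unique {γ : ℝ → ℝ × ℝ} (hγ : IsArc γ) {a : ℝ} {u f f' : E} (h : InOp γ a u f) (h' : InOp γ a u f') : f = f' := by
  obtain ⟨G₁, G₂, j, hj, hf⟩ := h
  obtain ⟨G₁', G₂', j', hj', hf'⟩ := h'
  obtain ⟨rfl, rfl, rfl⟩ := hasJump_unique hγ hj hj'
  have hz : f - f' = 0 := ae_zero_of_off hγ _ (fun φ hφ => by
    have hφ' : Off γ (fun x => conj (φ x)) := by
      refine ⟨conj_contDiff hφ.s, conj_supp hφ.c, fun t ht h => hφ.o t ht ?_⟩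
      refine closure_mono ?_ h
      intro x hx
      rw [Function.mem_support] at hx ⊢
      exact fun h => hx (by rw [h]; simp)
    have e1 := hf _ _ _ _ (off_hasJump hφ')
    have e2 := hf' _ _ _ _ (off_hasJump hφ')
    rw [e1] at e2
    have key : ∀ F : E, ∫ x, F x * conj ((hφ'.c0.toLp _ : ℝ × ℝ → ℂ) x) = ∫ x, F x * φ x := by
      intro F
      refine integral_congr_ae ?_
      filter_upwards [hφ'.c0.coeFn_toLp] with x hx
      rw [hx, Complex.conj_conj]
    rw [key, key, ← pairL_apply hφ.c0, ← pairL_apply hφ.c0] at e2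
    rw [← pairL_apply hφ.c0, map_sub, e2, sub_self])
  exact sub_eq_zero.1 hz

end Pool.Agent.Q233.DP
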