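import Pool.Agent.Q233.DP.C
import Pool.Agent.Q233.DP.LM

/-!
# The form domain as a closed subspace, the resolvent set
-/

set_option autoImplicit false
open MeasureTheory Set Filter Topology Metric
open scoped ContDiff ENNReal ComplexConjugate InnerProductSpace

namespace Pool.Agent.Q233.DP

section pair
variable {α : Type*} [MeasurableSpace α] {μ : Measure α}

/-- the pairing with a fixed square integrable function -/
noncomputable def pairL {k : α → ℂ} (hk : MemLp k 2 μ) : Lp ℂ 2 μ →L[ℂ] ℂ :=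
  innerSL ℂ ((show MemLp (fun x => conj (k x)) 2 μ from hk.star).toLp _)

lemma pairL_apply {k : α → ℂ} (hk : MemLp k 2 μ) (F : Lp ℂ 2 μ) : pairL hk F = ∫ x, F x * k x ∂μ := by
  have hk' : MemLp (fun x => conj (k x)) 2 μ := hk.star
  rw [pairL, innerSL_apply_apply, L2.inner_def]
  refine integral_congr_ae ?_
  filter_upwards [hk'.coeFn_toLp] with x hx
  rw [hx, RCLike.inner_apply, Complex.conj_conj]

end pair

lemma memLp_arc {k : ℝ → ℂ} (hk : Continuous k) : MemLp k 2 ((volume : Measure ℝ).restrict (Ioo (0:ℝ) 1)) := by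
  obtain ⟨C, hC⟩ := isCompact_Icc.exists_bound_of_continuousOn (s := Icc (0:ℝ) 1) hk.continuousOn
  refine MemLp.of_bound hk.aestronglyMeasurable C ?_
  exact (ae_restrict_mem measurableSet_Ioo).mono (fun s hs => hC s (Ioo_subset_Icc_self hs))

lemma cont_arc {γ : ℝ → ℝ × ℝ} (hγ : IsArc γ) {φ : ℝ × ℝ → ℂ} (hφ : Continuous φ) :
    Continuous (fun s => φ (γ s) * ((deriv γ s).1 : ℂ)) ∧ Continuous (fun s => φ (γ s) * ((deriv γ s).2 : ℂ)) := by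
  have hγc : Continuous γ := hγ.smooth.continuous
  have hγd : Continuous (deriv γ) := hγ.smooth.continuous_deriv (by norm_num)
  exact ⟨(hφ.comp hγc).mul (Complex.continuous_ofReal.comp (continuous_fst.comp hγd)),
    (hφ.comp hγc).mul (Complex.continuous_ofReal.comp (continuous_snd.comp hγd))⟩

/-- admissible test functions -/
def Tst : Type := {φ : ℝ × ℝ → ℂ // ContDiff ℝ 1 φ ∧ HasCompactSupport φ}

lemma Tst.m (t : Tst) : MemLp t.1 2 (volume : Measure (ℝ × ℝ)) := memLp_of t.2.1.continuous t.2.2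
lemma Tst.m1 (t : Tst) : MemLp (d1 t.1) 2 (volume : Measure (ℝ × ℝ)) :=
  memLp_of (d1_contDiff (m := 0) t.2.1 (by norm_num)).continuous (d1_supp t.2.2)
lemma Tst.m2 (t : Tst) : MemLp (d2 t.1) 2 (volume : Measure (ℝ × ℝ)) :=
  memLp_of (d2_contDiff (m := 0) t.2.1 (by norm_num)).continuous (d2_supp t.2.2)

/-- coordinate projections -/
noncomputable def p1 : H4 E J →L[ℂ] E := WithLp.fstL 2 ℂ E (WithLp 2 (E × WithLp 2 (E × J)))
/-- coordinate projections -/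
noncomputable def p2 : H4 E J →L[ℂ] E := WithLp.fstL 2 ℂ E (WithLp 2 (E × J)) ∘L WithLp.sndL 2 ℂ E (WithLp 2 (E × WithLp 2 (E × J)))
/-- coordinate projections -/
noncomputable def p3 : H4 E J →L[ℂ] E := WithLp.fstL 2 ℂ E J ∘L WithLp.sndL 2 ℂ E (WithLp 2 (E × J)) ∘L WithLp.sndL 2 ℂ E (WithLp 2 (E × WithLp 2 (E × J)))
/-- coordinate projections -/
noncomputable def p4 : H4 E J →L[ℂ] J := WithLp.sndL 2 ℂ E J ∘L WithLp.sndL 2 ℂ E (WithLp 2 (E × J)) ∘L WithLp.sndL 2 ℂ E (WithLp 2 (E × WithLp 2 (E × J)))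

/-- the first testing functional -/
noncomputable def F1 {γ : ℝ → ℝ × ℝ} (hγ : IsArc γ) (t : Tst) : H4 E J →L[ℂ] ℂ :=
  pairL t.m1 ∘L p1 + pairL t.m ∘L p2 - pairL (memLp_arc (cont_arc hγ t.2.1.continuous).2) ∘L p4

/-- the second testing functional -/
noncomputable def F2 {γ : ℝ → ℝ × ℝ} (hγ : IsArc γ) (t : Tst) : H4 E J →L[ℂ] ℂ :=
  pairL t.m2 ∘L p1 + pairL t.m ∘L p3 + pairL (memLp_arc (cont_arc hγ t.2.1.continuous).1) ∘L p4

lemma F1_apply {γ : ℝ → ℝ × ℝ} (hγ : IsArc γ) (t : Tst) (U : H4 E J) : F1 hγ t U =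
    (∫ x, U.fst x * d1 t.1 x) + (∫ x, U.snd.fst x * t.1 x) - ∫ s in Ioo (0:ℝ) 1, U.snd.snd.snd s * t.1 (γ s) * ((deriv γ s).2 : ℂ) := by
  have e : ∫ s in Ioo (0:ℝ) 1, U.snd.snd.snd s * t.1 (γ s) * ((deriv γ s).2 : ℂ) = pairL (memLp_arc (cont_arc hγ t.2.1.continuous).2) U.snd.snd.snd := by
    rw [pairL_apply]
    refine integral_congr_ae (Eventually.of_forall fun s => ?_)
    simp only [mul_assoc]
  rw [e, ← pairL_apply t.m1, ← pairL_apply t.m]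
  rfl

lemma F2_apply {γ : ℝ → ℝ × ℝ} (hγ : IsArc γ) (t : Tst) (U : H4 E J) : F2 hγ t U =
    (∫ x, U.fst x * d2 t.1 x) + (∫ x, U.snd.snd.fst x * t.1 x) + ∫ s in Ioo (0:ℝ) 1, U.snd.snd.snd s * t.1 (γ s) * ((deriv γ s).1 : ℂ) := by
  have e : ∫ s in Ioo (0:ℝ) 1, U.snd.snd.snd s * t.1 (γ s) * ((deriv γ s).1 : ℂ) = pairL (memLp_arc (cont_arc hγ t.2.1.continuous).1) U.snd.snd.snd := by
    rw [pairL_apply]
    refine integral_congr_ae (Eventually.of_forall fun s => ?_)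
    simp only [mul_assoc]
  rw [e, ← pairL_apply t.m2, ← pairL_apply t.m]
  rfl

/-- the form domain -/
noncomputable def V {γ : ℝ → ℝ × ℝ} (hγ : IsArc γ) : Submodule ℂ (H4 E J) :=
  ⨅ t : Tst, (LinearMap.ker (F1 hγ t : H4 E J →ₗ[ℂ] ℂ) ⊓ LinearMap.ker (F2 hγ t : H4 E J →ₗ[ℂ] ℂ))

lemma V_closed {γ : ℝ → ℝ × ℝ} (hγ : IsArc γ) : IsClosed (V hγ : Set (H4 E J)) := by
  rw [V, Submodule.coe_iInf]
  refine isClosed_iInter (fun t => ?_)
  rw [Submodule.coe_inf]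
  exact (F1 hγ t).isClosed_ker.inter (F2 hγ t).isClosed_ker

lemma mem_V {γ : ℝ → ℝ × ℝ} (hγ : IsArc γ) (U : H4 E J) : U ∈ V hγ ↔ HasJump γ U.fst U.snd.fst U.snd.snd.fst U.snd.snd.snd := by
  rw [V, Submodule.mem_iInf]
  constructor
  · intro h φ hφ hs
    have h1 : F1 hγ ⟨φ, hφ, hs⟩ U = 0 := (h ⟨φ, hφ, hs⟩).1
    have h2 : F2 hγ ⟨φ, hφ, hs⟩ U = 0 := (h ⟨φ, hφ, hs⟩).2
    rw [F1_apply] at h1
    rw [F2_apply] at h2
    simp only at h1 h2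
    constructor
    · linear_combination h1
    · linear_combination h2
  · intro h t
    have h1 := (h t.1 t.2.1 t.2.2).1
    have h2 := (h t.1 t.2.1 t.2.2).2
    have h3 : F1 hγ t U = 0 := by
      rw [F1_apply]
      linear_combination h1
    have h4 : F2 hγ t U = 0 := by
      rw [F2_apply]
      linear_combination h2
    exact ⟨h3, h4⟩

/-- packing -/
noncomputable def pk (u G₁ G₂ : E) (j : J) : H4 E J := WithLp.toLp 2 (u, WithLp.toLp 2 (G₁, WithLp.toLp 2 (G₂, j)))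

lemma pk_mem {γ : ℝ → ℝ × ℝ} (hγ : IsArc γ) {u G₁ G₂ : E} {j : J} : pk u G₁ G₂ j ∈ V hγ ↔ HasJump γ u G₁ G₂ j := mem_V hγ _

lemma hasJump_sub {γ : ℝ → ℝ × ℝ} (hγ : IsArc γ) {u G₁ G₂ u' G₁' G₂' : E} {j j' : J} (h : HasJump γ u G₁ G₂ j)
    (h' : HasJump γ u' G₁' G₂' j') : HasJump γ (u - u') (G₁ - G₁') (G₂ - G₂') (j - j') :=
  (pk_mem hγ).1 ((V hγ).sub_mem ((pk_mem hγ).2 h) ((pk_mem hγ).2 h'))

/-- the speed as an essentially bounded function -/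
lemma speed_cont {γ : ℝ → ℝ × ℝ} (hγ : IsArc γ) : Continuous (speed γ) := by
  have hγd : Continuous (deriv γ) := hγ.smooth.continuous_deriv (by norm_num)
  exact (((continuous_fst.comp hγd).pow 2).add ((continuous_snd.comp hγd).pow 2)).sqrt

lemma speed_nonneg (γ : ℝ → ℝ × ℝ) (s : ℝ) : 0 ≤ speed γ s := Real.sqrt_nonneg _

lemma speed_bound {γ : ℝ → ℝ × ℝ} (hγ : IsArc γ) : ∃ M : ℝ, 0 ≤ M ∧ ∀ s ∈ Icc (0:ℝ) 1, speed γ s ≤ M := by
  obtain ⟨C, hC⟩ := isCompact_Icc.exists_bound_of_continuousOn (s := Icc (0:ℝ) 1) (speed_cont hγ).continuousOn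
  refine ⟨C, (norm_nonneg _).trans (hC 0 (by simp)), fun s hs => (le_abs_self _).trans (hC s hs)⟩

lemma speed_memLp {γ : ℝ → ℝ × ℝ} (hγ : IsArc γ) : MemLp (fun s => (speed γ s : ℂ)) ∞ ((volume : Measure ℝ).restrict (Ioo (0:ℝ) 1)) := by
  obtain ⟨M, hM, hb⟩ := speed_bound hγ
  refine memLp_top_of_bound (Complex.continuous_ofReal.comp (speed_cont hγ)).aestronglyMeasurable M ?_
  refine (ae_restrict_mem measurableSet_Ioo).mono (fun s hs => ?_)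
  rw [Complex.norm_of_nonneg (speed_nonneg γ s)]
  exact hb s (Ioo_subset_Icc_self hs)

/-- multiplication by the speed -/
noncomputable def S {γ : ℝ → ℝ × ℝ} (hγ : IsArc γ) : J →L[ℂ] J :=
  (ContinuousLinearMap.mul ℂ ℂ).holderL ((volume : Measure ℝ).restrict (Ioo (0:ℝ) 1)) ∞ 2 2 ((speed_memLp hγ).toLp _)

lemma S_coe {γ : ℝ → ℝ × ℝ} (hγ : IsArc γ) (j : J) : (S hγ j : ℝ → ℂ) =ᵐ[(volume : Measure ℝ).restrict (Ioo (0:ℝ) 1)] fun s => (speed γ s : ℂ) * j s := by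
  have h1 := (ContinuousLinearMap.mul ℂ ℂ).coeFn_holder (r := 2) ((speed_memLp hγ).toLp _) j
  filter_upwards [h1, (speed_memLp hγ).coeFn_toLp] with s h2 h3
  have : (S hγ j : ℝ → ℂ) s = ((ContinuousLinearMap.mul ℂ ℂ).holder 2 ((speed_memLp hγ).toLp _) j : ℝ → ℂ) s := rfl
  rw [this, h2, h3]
  rfl

lemma inner_eq {α : Type*} [MeasurableSpace α] {μ : Measure α} (F G : Lp ℂ 2 μ) : ⟪F, G⟫_ℂ = ∫ x, G x * conj (F x) ∂μ := by
  rw [L2.inner_def]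
  refine integral_congr_ae (Eventually.of_forall fun x => ?_)
  simp only [RCLike.inner_apply]

lemma form_eq {γ : ℝ → ℝ × ℝ} (hγ : IsArc γ) (a : ℝ) (G₁ G₂ : E) (j : J) (H₁ H₂ : E) (k : J) :
    form γ a G₁ G₂ j H₁ H₂ k = ⟪H₁, G₁⟫_ℂ + ⟪H₂, G₂⟫_ℂ - (a : ℂ) * ⟪k, S hγ j⟫_ℂ := by
  rw [form, inner_eq, inner_eq, inner_eq]
  congr 2
  refine integral_congr_ae ?_
  filter_upwards [S_coe hγ j] with s hs
  rw [hs]
  ring

/-- the weighted square of the jump -/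
noncomputable def sj (γ : ℝ → ℝ × ℝ) (j : J) : ℝ := ∫ s in Ioo (0:ℝ) 1, speed γ s * ‖j s‖ ^ 2

lemma j_sq_int (j : J) : Integrable (fun s => ‖j s‖ ^ 2) ((volume : Measure ℝ).restrict (Ioo (0:ℝ) 1)) :=
  (memLp_two_iff_integrable_sq_norm (Lp.memLp j).1).1 (Lp.memLp j)

lemma inner_S {γ : ℝ → ℝ × ℝ} (hγ : IsArc γ) (j : J) : ⟪j, S hγ j⟫_ℂ = (sj γ j : ℂ) := by
  rw [inner_eq, sj, ← integral_complex_ofReal]
  refine integral_congr_ae ?_
  filter_upwards [S_coe hγ j] with s hs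
  rw [hs, mul_assoc, Complex.mul_conj, Complex.normSq_eq_norm_sq]
  push_cast
  rfl

lemma sj_nonneg (γ : ℝ → ℝ × ℝ) (j : J) : 0 ≤ sj γ j :=
  integral_nonneg (fun s => mul_nonneg (speed_nonneg γ s) (sq_nonneg _))

lemma norm_sq_J (j : J) : ‖j‖ ^ 2 = ∫ s in Ioo (0:ℝ) 1, ‖j s‖ ^ 2 := by
  have h := toLp_norm_sq (Lp.memLp j)
  rwa [Lp.toLp_coeFn] at h

lemma sj_le {γ : ℝ → ℝ × ℝ} {M : ℝ} (hb : ∀ s ∈ Icc (0:ℝ) 1, speed γ s ≤ M) (j : J) : sj γ j ≤ M * ‖j‖ ^ 2 := by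
  rw [norm_sq_J, ← integral_const_mul, sj]
  refine integral_mono_of_nonneg (Eventually.of_forall fun s => mul_nonneg (speed_nonneg γ s) (sq_nonneg _))
    ((j_sq_int j).const_mul M) ?_
  refine (ae_restrict_mem measurableSet_Ioo).mono (fun s hs => ?_)
  simp only
  gcongr
  exact hb s (Ioo_subset_Icc_self hs)

lemma inOp_iff {γ : ℝ → ℝ × ℝ} (hγ : IsArc γ) (a : ℝ) (u f : E) : InOp γ a u f ↔ ∃ U ∈ V hγ, U.fst = u ∧ ∀ W ∈ V hγ,
    (⟪W.snd.fst, U.snd.fst⟫_ℂ + ⟪W.snd.snd.fst, U.snd.snd.fst⟫_ℂ - (a : ℂ) * ⟪W.snd.snd.snd, S hγ U.snd.snd.snd⟫_ℂ = ⟪W.fst, f⟫_ℂ) := by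
  constructor
  · rintro ⟨G₁, G₂, j, hj, h⟩
    refine ⟨pk u G₁ G₂ j, (pk_mem hγ).2 hj, rfl, fun W hW => ?_⟩
    have := h _ _ _ _ ((mem_V hγ W).1 hW)
    rw [form_eq hγ, ← inner_eq] at this
    exact this
  · rintro ⟨U, hU, rfl, h⟩
    refine ⟨U.snd.fst, U.snd.snd.fst, U.snd.snd.snd, (mem_V hγ U).1 hU, fun v H₁ H₂ k hk => ?_⟩
    rw [form_eq hγ, ← inner_eq]
    exact h (pk v H₁ H₂ k) ((pk_mem hγ).2 hk)

/-- **Everything off the half-line is in the resolvent set for small coupling.** -/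
theorem resolvent_main {γ : ℝ → ℝ × ℝ} (hγ : IsArc γ) : ∃ a₀ : ℝ, 0 < a₀ ∧ ∀ a ≤ a₀, ∀ z : ℂ, ¬ (0 ≤ z.re ∧ z.im = 0) →
    InResolvent γ a z := by
  obtain ⟨C, hC, hCj⟩ := jump_bound hγ
  obtain ⟨M, hM, hMb⟩ := speed_bound hγ
  refine ⟨1 / (4 * M * C ^ 2 + 1), by positivity, fun a ha z hz => ?_⟩
  obtain ⟨K, hK, hex, hbd⟩ := solve4 (V hγ) (V_closed hγ) (S hγ) (sj γ) hC hM (inner_S hγ) (sj_nonneg γ) (sj_le hMb)
    (fun U hU => hCj _ _ _ _ ((mem_V hγ U).1 hU)) ha hz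
  have hbd' : ∀ f u : E, InOp γ a u (f + z • u) → ‖u‖ ≤ K * ‖f‖ := by
    intro f u h
    obtain ⟨U, hU, rfl, hW⟩ := (inOp_iff hγ a _ _).1 h
    exact hbd f U hU hW
  refine ⟨fun f => ?_, K, hbd'⟩
  obtain ⟨U, hU, hW⟩ := hex f
  refine ⟨U.fst, (inOp_iff hγ a _ _).2 ⟨U, hU, rfl, hW⟩, fun u' h' => ?_⟩
  obtain ⟨U', hU', rfl, hW'⟩ := (inOp_iff hγ a _ _).1 h'
  have h0 := hbd 0 (U' - U) ((V hγ).sub_mem hU' hU) (fun W hWV => by
    have e1 := hW W hWV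
    have e2 := hW' W hWV
    simp only [WithLp.sub_fst, WithLp.sub_snd, map_sub, inner_sub_right, smul_sub, inner_add_right, zero_add, inner_smul_right] at e1 e2 ⊢
    linear_combination e2 - e1)
  rw [norm_zero, mul_zero, WithLp.sub_fst] at h0
  exact sub_eq_zero.1 (norm_le_zero_iff.1 h0)

end Pool.Agent.Q233.DP
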