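import Pool.Agent.Q233.DP.V

/-!
# Test functions off the arc and Weyl sequences
-/

set_option autoImplicit false
open MeasureTheory Set Filter Topology Metric
open scoped ContDiff ENNReal ComplexConjugate InnerProductSpace

namespace Pool.Agent.Q233.DP

lemma ibp {f g : ℝ × ℝ → ℂ} (hf : ContDiff ℝ 1 f) (hg : ContDiff ℝ 1 g) (hfs : HasCompactSupport f)
    (hgs : HasCompactSupport g) (v : ℝ × ℝ) :
    ∫ x, f x * fderiv ℝ g x v = -∫ x, fderiv ℝ f x v * g x := by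
  have cf : Continuous (fun x => fderiv ℝ f x v) := (hf.continuous_fderiv (by norm_num)).clm_apply continuous_const
  have cg : Continuous (fun x => fderiv ℝ g x v) := (hg.continuous_fderiv (by norm_num)).clm_apply continuous_const
  refine integral_mul_fderiv_eq_neg_fderiv_mul_of_integrable ?_ ?_ ?_ (fun x _ => hf.differentiable (by norm_num) x)
    (fun x _ => hg.differentiable (by norm_num) x)
  · exact (cf.mul hg.continuous).integrable_of_hasCompactSupport hgs.mul_left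
  · exact (hf.continuous.mul cg).integrable_of_hasCompactSupport hfs.mul_right
  · exact (hf.continuous.mul hg.continuous).integrable_of_hasCompactSupport hfs.mul_right

lemma conj_contDiff {n : WithTop ℕ∞} {φ : ℝ × ℝ → ℂ} (h : ContDiff ℝ n φ) : ContDiff ℝ n (fun x => conj (φ x)) :=
  Complex.conjCLE.contDiff.comp h

lemma conj_supp {φ : ℝ × ℝ → ℂ} (h : HasCompactSupport φ) : HasCompactSupport (fun x => conj (φ x)) :=
  h.comp_left (g := fun z : ℂ => conj z) (by simp)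

lemma d1_conj {φ : ℝ × ℝ → ℂ} (h : ContDiff ℝ 1 φ) (x : ℝ × ℝ) : d1 (fun x => conj (φ x)) x = conj (d1 φ x) := by
  have hd : HasFDerivAt φ (fderiv ℝ φ x) x := (h.differentiable (by norm_num) x).hasFDerivAt
  have hc := (Complex.conjCLE.toContinuousLinearMap.hasFDerivAt (x := φ x)).comp x hd
  have : fderiv ℝ (fun x => conj (φ x)) x = Complex.conjCLE.toContinuousLinearMap.comp (fderiv ℝ φ x) := hc.fderiv
  rw [d1, this]
  rfl

lemma d2_conj {φ : ℝ × ℝ → ℂ} (h : ContDiff ℝ 1 φ) (x : ℝ × ℝ) : d2 (fun x => conj (φ x)) x = conj (d2 φ x) := by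
  have hd : HasFDerivAt φ (fderiv ℝ φ x) x := (h.differentiable (by norm_num) x).hasFDerivAt
  have hc := (Complex.conjCLE.toContinuousLinearMap.hasFDerivAt (x := φ x)).comp x hd
  have : fderiv ℝ (fun x => conj (φ x)) x = Complex.conjCLE.toContinuousLinearMap.comp (fderiv ℝ φ x) := hc.fderiv
  rw [d2, this]
  rfl

/-- a test function vanishing near the arc -/
structure Off (γ : ℝ → ℝ × ℝ) (φ : ℝ × ℝ → ℂ) : Prop where
  s : ContDiff ℝ 2 φ
  c : HasCompactSupport φ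
  o : ∀ t ∈ Icc (0:ℝ) 1, γ t ∉ tsupport φ

lemma Off.c0 {γ : ℝ → ℝ × ℝ} {φ : ℝ × ℝ → ℂ} (h : Off γ φ) : MemLp φ 2 (volume : Measure (ℝ × ℝ)) := memLp_of h.s.continuous h.c

lemma Off.s1 {γ : ℝ → ℝ × ℝ} {φ : ℝ × ℝ → ℂ} (h : Off γ φ) : ContDiff ℝ 1 (d1 φ) := d1_contDiff h.s (by norm_num)
lemma Off.s2 {γ : ℝ → ℝ × ℝ} {φ : ℝ × ℝ → ℂ} (h : Off γ φ) : ContDiff ℝ 1 (d2 φ) := d2_contDiff h.s (by norm_num)
lemma Off.k1 {γ : ℝ → ℝ × ℝ} {φ : ℝ × ℝ → ℂ} (h : Off γ φ) : MemLp (d1 φ) 2 (volume : Measure (ℝ × ℝ)) := memLp_of h.s1.continuous (d1_supp h.c)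
lemma Off.k2 {γ : ℝ → ℝ × ℝ} {φ : ℝ × ℝ → ℂ} (h : Off γ φ) : MemLp (d2 φ) 2 (volume : Measure (ℝ × ℝ)) := memLp_of h.s2.continuous (d2_supp h.c)

lemma Off.z1 {γ : ℝ → ℝ × ℝ} {φ : ℝ × ℝ → ℂ} (h : Off γ φ) {t : ℝ} (ht : t ∈ Icc (0:ℝ) 1) : d1 φ (γ t) = 0 := by
  have h1 : γ t ∉ tsupport (fderiv ℝ φ) := fun h' => h.o t ht (tsupport_fderiv_subset ℝ h')
  rw [d1, image_eq_zero_of_notMem_tsupport h1]
  rfl
lemma Off.z2 {γ : ℝ → ℝ × ℝ} {φ : ℝ × ℝ → ℂ} (h : Off γ φ) {t : ℝ} (ht : t ∈ Icc (0:ℝ) 1) : d2 φ (γ t) = 0 := by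
  have h1 : γ t ∉ tsupport (fderiv ℝ φ) := fun h' => h.o t ht (tsupport_fderiv_subset ℝ h')
  rw [d2, image_eq_zero_of_notMem_tsupport h1]
  rfl

/-- minus the Laplacian of a test function -/
noncomputable def mlap (φ : ℝ × ℝ → ℂ) (x : ℝ × ℝ) : ℂ := -(d1 (d1 φ) x + d2 (d2 φ) x)

lemma Off.ml {γ : ℝ → ℝ × ℝ} {φ : ℝ × ℝ → ℂ} (h : Off γ φ) : MemLp (mlap φ) 2 (volume : Measure (ℝ × ℝ)) := by
  have c11 : Continuous (d1 (d1 φ)) := (d1_contDiff (m := 0) h.s1 (by norm_num)).continuous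
  have c22 : Continuous (d2 (d2 φ)) := (d2_contDiff (m := 0) h.s2 (by norm_num)).continuous
  exact ((memLp_of c11 (d1_supp (d1_supp h.c))).add (memLp_of c22 (d2_supp (d2_supp h.c)))).neg

lemma off_hasJump {γ : ℝ → ℝ × ℝ} {φ : ℝ × ℝ → ℂ} (h : Off γ φ) :
    HasJump γ (h.c0.toLp φ) (h.k1.toLp _) (h.k2.toLp _) 0 := by
  intro χ hχ hχs
  have hz : ∀ F : ℝ → ℂ, ∫ s in Ioo (0:ℝ) 1, (0 : J) s * χ (γ s) * F s = 0 := by
    intro F
    refine integral_eq_zero_of_ae ?_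
    filter_upwards [Lp.coeFn_zero ℂ 2 ((volume : Measure ℝ).restrict (Ioo (0:ℝ) 1))] with s hs
    rw [hs]
    simp
  have e0 : ∀ k : ℝ × ℝ → ℂ, ∫ x, (h.c0.toLp φ : ℝ × ℝ → ℂ) x * k x = ∫ x, φ x * k x := by
    intro k
    refine integral_congr_ae ?_
    filter_upwards [h.c0.coeFn_toLp] with x hx
    rw [hx]
  have e1 : ∫ x, (h.k1.toLp _ : ℝ × ℝ → ℂ) x * χ x = ∫ x, d1 φ x * χ x := by
    refine integral_congr_ae ?_
    filter_upwards [h.k1.coeFn_toLp] with x hx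
    rw [hx]
  have e2 : ∫ x, (h.k2.toLp _ : ℝ × ℝ → ℂ) x * χ x = ∫ x, d2 φ x * χ x := by
    refine integral_congr_ae ?_
    filter_upwards [h.k2.coeFn_toLp] with x hx
    rw [hx]
  have hφ1 : ContDiff ℝ 1 φ := h.s.of_le (by norm_num)
  constructor
  · rw [hz (fun s => ((deriv γ s).2 : ℂ)), e0, e1, add_zero]
    exact ibp hφ1 hχ h.c hχs (1, 0)
  · rw [hz (fun s => ((deriv γ s).1 : ℂ)), e0, e2, sub_zero]
    exact ibp hφ1 hχ h.c hχs (0, 1)

/-- on test functions vanishing near the arc the operator is minus the Laplacian -/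
theorem off_inOp {γ : ℝ → ℝ × ℝ} (a : ℝ) {φ : ℝ × ℝ → ℂ} (h : Off γ φ) :
    InOp γ a (h.c0.toLp φ) (h.ml.toLp _) := by
  refine ⟨_, _, _, off_hasJump h, fun v H₁ H₂ k hk => ?_⟩
  have c11 : Continuous (d1 (d1 φ)) := (d1_contDiff (m := 0) h.s1 (by norm_num)).continuous
  have c22 : Continuous (d2 (d2 φ)) := (d2_contDiff (m := 0) h.s2 (by norm_num)).continuous
  have m11 := memLp_of c11 (d1_supp (d1_supp h.c))
  have m22 := memLp_of c22 (d2_supp (d2_supp h.c))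
  have t1 := (hk (fun x => conj (d1 φ x)) (conj_contDiff h.s1) (conj_supp (d1_supp h.c))).1
  have t2 := (hk (fun x => conj (d2 φ x)) (conj_contDiff h.s2) (conj_supp (d2_supp h.c))).2
  have z1 : ∫ s in Ioo (0:ℝ) 1, k s * conj (d1 φ (γ s)) * ((deriv γ s).2 : ℂ) = 0 := by
    refine setIntegral_eq_zero_of_forall_eq_zero (fun s hs => ?_)
    rw [h.z1 (Ioo_subset_Icc_self hs)]
    simp
  have z2 : ∫ s in Ioo (0:ℝ) 1, k s * conj (d2 φ (γ s)) * ((deriv γ s).1 : ℂ) = 0 := by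
    refine setIntegral_eq_zero_of_forall_eq_zero (fun s hs => ?_)
    rw [h.z2 (Ioo_subset_Icc_self hs)]
    simp
  rw [z1, add_zero] at t1
  rw [z2, sub_zero] at t2
  have r1 : ∫ x, d1 φ x * conj (H₁ x) = -∫ x, d1 (d1 φ) x * conj (v x) := by
    have e1 : ∫ x, d1 φ x * conj (H₁ x) = conj (∫ x, H₁ x * conj (d1 φ x)) := by
      rw [← integral_conj]
      refine integral_congr_ae (Eventually.of_forall fun x => ?_)
      simp [mul_comm]
    have e2 : ∫ x, d1 (d1 φ) x * conj (v x) = conj (∫ x, v x * d1 (fun x => conj (d1 φ x)) x) := by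
      rw [← integral_conj]
      refine integral_congr_ae (Eventually.of_forall fun x => ?_)
      simp only
      rw [d1_conj h.s1]
      simp [mul_comm]
    rw [e1, e2, t1, map_neg, neg_neg]
  have r2 : ∫ x, d2 φ x * conj (H₂ x) = -∫ x, d2 (d2 φ) x * conj (v x) := by
    have e1 : ∫ x, d2 φ x * conj (H₂ x) = conj (∫ x, H₂ x * conj (d2 φ x)) := by
      rw [← integral_conj]
      refine integral_congr_ae (Eventually.of_forall fun x => ?_)
      simp [mul_comm]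
    have e2 : ∫ x, d2 (d2 φ) x * conj (v x) = conj (∫ x, v x * d2 (fun x => conj (d2 φ x)) x) := by
      rw [← integral_conj]
      refine integral_congr_ae (Eventually.of_forall fun x => ?_)
      simp only
      rw [d2_conj h.s2]
      simp [mul_comm]
    rw [e1, e2, t2, map_neg, neg_neg]
  have e1 : ∫ x, (h.k1.toLp _ : ℝ × ℝ → ℂ) x * conj (H₁ x) = ∫ x, d1 φ x * conj (H₁ x) := by
    refine integral_congr_ae ?_
    filter_upwards [h.k1.coeFn_toLp] with x hx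
    rw [hx]
  have e2 : ∫ x, (h.k2.toLp _ : ℝ × ℝ → ℂ) x * conj (H₂ x) = ∫ x, d2 φ x * conj (H₂ x) := by
    refine integral_congr_ae ?_
    filter_upwards [h.k2.coeFn_toLp] with x hx
    rw [hx]
  have e3 : ∫ s in Ioo (0:ℝ) 1, (0 : J) s * conj (k s) * (speed γ s : ℂ) = 0 := by
    refine integral_eq_zero_of_ae ?_
    filter_upwards [Lp.coeFn_zero ℂ 2 ((volume : Measure ℝ).restrict (Ioo (0:ℝ) 1))] with s hs
    rw [hs]
    simp
  have i1 : Integrable (fun x => d1 (d1 φ) x * conj (v x)) := by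
    have := (m11.integrable_mul (p := 2) (q := 2) ((Lp.memLp v).star))
    exact this
  have i2 : Integrable (fun x => d2 (d2 φ) x * conj (v x)) := by
    have := (m22.integrable_mul (p := 2) (q := 2) ((Lp.memLp v).star))
    exact this
  have e4 : ∫ x, (h.ml.toLp _ : ℝ × ℝ → ℂ) x * conj (v x) = -((∫ x, d1 (d1 φ) x * conj (v x)) + ∫ x, d2 (d2 φ) x * conj (v x)) := by
    rw [← integral_add i1 i2, ← integral_neg]
    refine integral_congr_ae ?_
    filter_upwards [h.ml.coeFn_toLp] with x hx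
    rw [hx, mlap]
    ring
  rw [form, e1, e2, e3, e4, r1, r2]
  ring

end Pool.Agent.Q233.DP
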