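import Pool.Agent.Q233.DP.W

/-!
# Weyl sequences: the half-line belongs to the spectrum
-/

set_option autoImplicit false
open MeasureTheory Set Filter Topology Metric
open scoped ContDiff ENNReal ComplexConjugate InnerProductSpace

namespace Pool.Agent.Q233.DP

lemma prod_hasFDerivAt {A B : ℝ → ℂ} {A' B' : ℂ} {x : ℝ × ℝ} (hA : HasDerivAt A A' x.1) (hB : HasDerivAt B B' x.2) :
    HasFDerivAt (fun y : ℝ × ℝ => A y.1 * B y.2)
      (A x.1 • ((ContinuousLinearMap.toSpanSingleton ℝ B').comp (ContinuousLinearMap.snd ℝ ℝ ℝ)) +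
        B x.2 • ((ContinuousLinearMap.toSpanSingleton ℝ A').comp (ContinuousLinearMap.fst ℝ ℝ ℝ))) x := by
  have h1 : HasFDerivAt (fun y : ℝ × ℝ => A y.1) ((ContinuousLinearMap.toSpanSingleton ℝ A').comp (ContinuousLinearMap.fst ℝ ℝ ℝ)) x :=
    hA.hasFDerivAt.comp x hasFDerivAt_fst
  have h2 : HasFDerivAt (fun y : ℝ × ℝ => B y.2) ((ContinuousLinearMap.toSpanSingleton ℝ B').comp (ContinuousLinearMap.snd ℝ ℝ ℝ)) x :=
    hB.hasFDerivAt.comp x hasFDerivAt_snd
  exact h1.mul h2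

lemma d1_prod {A B : ℝ → ℂ} {A' B' : ℂ} {x : ℝ × ℝ} (hA : HasDerivAt A A' x.1) (hB : HasDerivAt B B' x.2) :
    d1 (fun y : ℝ × ℝ => A y.1 * B y.2) x = A' * B x.2 := by
  rw [d1, (prod_hasFDerivAt hA hB).fderiv]
  simp [mul_comm]

lemma d2_prod {A B : ℝ → ℂ} {A' B' : ℂ} {x : ℝ × ℝ} (hA : HasDerivAt A A' x.1) (hB : HasDerivAt B B' x.2) :
    d2 (fun y : ℝ × ℝ => A y.1 * B y.2) x = A x.1 * B' := by
  rw [d2, (prod_hasFDerivAt hA hB).fderiv]
  simp

/-- the basic bump -/
noncomputable def bmp : ContDiffBump (0 : ℝ) := ⟨1/2, 1, by norm_num, by norm_num⟩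

lemma bmp_smooth {n : ℕ∞} : ContDiff ℝ n (bmp : ℝ → ℝ) := bmp.contDiff

/-- the first derivative of the bump -/
noncomputable def b1 : ℝ → ℝ := deriv bmp
/-- the second derivative of the bump -/
noncomputable def b2 : ℝ → ℝ := deriv b1

lemma b0_d (t : ℝ) : HasDerivAt (bmp : ℝ → ℝ) (b1 t) t :=
  ((bmp_smooth (n := 1)).differentiable (by norm_num) t).hasDerivAt

lemma b1_smooth : ContDiff ℝ 1 b1 := by
  have h : ContDiff ℝ (1 + 1) (bmp : ℝ → ℝ) := by
    have := bmp_smooth (n := 2)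
    convert this using 1
    norm_num
  exact (contDiff_succ_iff_deriv.1 h).2.2

lemma b1_d (t : ℝ) : HasDerivAt b1 (b2 t) t := (b1_smooth.differentiable (by norm_num) t).hasDerivAt

lemma b2_cont : Continuous b2 := b1_smooth.continuous_deriv (by norm_num)

lemma bmp_out {t : ℝ} (ht : 1 < |t|) : (bmp : ℝ → ℝ) t = 0 ∧ b1 t = 0 ∧ b2 t = 0 := by
  have hz : ∀ s : ℝ, 1 < |s| → (bmp : ℝ → ℝ) s = 0 := by
    intro s hs
    refine bmp.zero_of_le_dist ?_
    rw [dist_zero_right, Real.norm_eq_abs]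
    exact hs.le
  have hopen : IsOpen {s : ℝ | 1 < |s|} := isOpen_lt continuous_const continuous_abs
  have h1 : ∀ s : ℝ, 1 < |s| → b1 s = 0 := by
    intro s hs
    have he : (bmp : ℝ → ℝ) =ᶠ[𝓝 s] fun _ => 0 := by
      filter_upwards [hopen.mem_nhds hs] with r hr using hz r hr
    rw [b1, he.deriv_eq, deriv_const]
  refine ⟨hz t ht, h1 t ht, ?_⟩
  have he : b1 =ᶠ[𝓝 t] fun _ => 0 := by
    filter_upwards [hopen.mem_nhds ht] with r hr using h1 r hr
  rw [b2, he.deriv_eq, deriv_const]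

lemma bmp_one {t : ℝ} (ht : |t| ≤ 1/2) : (bmp : ℝ → ℝ) t = 1 := by
  refine bmp.one_of_mem_closedBall ?_
  rw [mem_closedBall, dist_zero_right, Real.norm_eq_abs]
  exact ht

lemma bmp_abs (t : ℝ) : |(bmp : ℝ → ℝ) t| ≤ 1 := by
  rw [abs_of_nonneg (bmp.nonneg' t)]
  exact bmp.le_one

lemma b_bounds : ∃ P : ℝ, 0 ≤ P ∧ (∀ t, |b1 t| ≤ P) ∧ (∀ t, |b2 t| ≤ P) := by
  obtain ⟨P1, h1⟩ := (isCompact_Icc (a := (-1:ℝ)) (b := 1)).exists_bound_of_continuousOn b1_smooth.continuous.continuousOn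
  obtain ⟨P2, h2⟩ := (isCompact_Icc (a := (-1:ℝ)) (b := 1)).exists_bound_of_continuousOn b2_cont.continuousOn
  refine ⟨max 0 (max P1 P2), le_max_left _ _, fun t => ?_, fun t => ?_⟩
  · by_cases ht : |t| ≤ 1
    · exact (h1 t (abs_le.1 ht)).trans ((le_max_left _ _).trans (le_max_right _ _))
    · rw [(bmp_out (not_le.1 ht)).2.1, abs_zero]
      exact le_max_left _ _
  · by_cases ht : |t| ≤ 1
    · exact (h2 t (abs_le.1 ht)).trans ((le_max_right _ _).trans (le_max_right _ _))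
    · rw [(bmp_out (not_le.1 ht)).2.2, abs_zero]
      exact le_max_left _ _

/-- the one-dimensional profiles -/
noncomputable def q0 (c n t : ℝ) : ℂ := ((bmp : ℝ → ℝ) ((t - c) / n) : ℂ)
/-- the one-dimensional profiles -/
noncomputable def q1 (c n t : ℝ) : ℂ := ((b1 ((t - c) / n) / n : ℝ) : ℂ)
/-- the one-dimensional profiles -/
noncomputable def q2 (c n t : ℝ) : ℂ := ((b2 ((t - c) / n) / n / n : ℝ) : ℂ)

lemma aff_d (c n t : ℝ) : HasDerivAt (fun t : ℝ => (t - c) / n) (1 / n) t := ((hasDerivAt_id t).sub_const c).div_const n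

lemma q0_d (c n t : ℝ) : HasDerivAt (q0 c n) (q1 c n t) t := by
  have h := ((b0_d ((t - c) / n)).comp t (aff_d c n t)).ofReal_comp
  have e : ((b1 ((t - c) / n) * (1 / n) : ℝ) : ℂ) = q1 c n t := by
    rw [q1]; congr 1; ring
  rw [e] at h
  exact h

lemma q1_d (c n t : ℝ) : HasDerivAt (q1 c n) (q2 c n t) t := by
  have h := (((b1_d ((t - c) / n)).comp t (aff_d c n t)).div_const n).ofReal_comp
  have e : ((b2 ((t - c) / n) * (1 / n) / n : ℝ) : ℂ) = q2 c n t := by
    rw [q2]; congr 1; ring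
  rw [e] at h
  exact h

/-- modulated profiles -/
noncomputable def A0 (k c n t : ℝ) : ℂ := Complex.exp (k * t * Complex.I) * q0 c n t
/-- modulated profiles -/
noncomputable def A1 (k c n t : ℝ) : ℂ := Complex.exp (k * t * Complex.I) * (k * Complex.I * q0 c n t + q1 c n t)
/-- modulated profiles -/
noncomputable def A2 (k c n t : ℝ) : ℂ := Complex.exp (k * t * Complex.I) * (-(k:ℂ) ^ 2 * q0 c n t + 2 * k * Complex.I * q1 c n t + q2 c n t)

lemma ex_d (k t : ℝ) : HasDerivAt (fun t : ℝ => Complex.exp (k * t * Complex.I)) (Complex.exp (k * t * Complex.I) * (k * Complex.I)) t := by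
  have h1 : HasDerivAt (fun t : ℝ => (k * t * Complex.I : ℂ)) (k * 1 * Complex.I) t :=
    ((Complex.ofRealCLM.hasDerivAt (x := t)).const_mul (k : ℂ)).mul_const Complex.I
  rw [mul_one] at h1
  exact h1.cexp

lemma A0_d (k c n t : ℝ) : HasDerivAt (A0 k c n) (A1 k c n t) t := by
  have h := (ex_d k t).mul (q0_d c n t)
  have e : Complex.exp (k * t * Complex.I) * (k * Complex.I) * q0 c n t + Complex.exp (k * t * Complex.I) * q1 c n t = A1 k c n t := by
    rw [A1]; ring
  rw [e] at h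
  exact h

lemma A1_d (k c n t : ℝ) : HasDerivAt (A1 k c n) (A2 k c n t) t := by
  have h := (ex_d k t).mul (((q0_d c n t).const_mul (k * Complex.I : ℂ)).add (q1_d c n t))
  have e : Complex.exp (k * t * Complex.I) * (k * Complex.I) * (k * Complex.I * q0 c n t + q1 c n t) +
      Complex.exp (k * t * Complex.I) * (k * Complex.I * q1 c n t + q2 c n t) = A2 k c n t := by
    rw [A2]
    linear_combination Complex.exp (k * t * Complex.I) * (k:ℂ) ^ 2 * q0 c n t * Complex.I_sq
  rw [← e]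
  exact h

/-- the Weyl functions -/
noncomputable def wf (k c n : ℝ) (x : ℝ × ℝ) : ℂ := A0 k c n x.1 * q0 0 n x.2

lemma q0_smooth (c n : ℝ) : ContDiff ℝ 2 (q0 c n) := by
  have h1 : ContDiff ℝ 2 (fun t : ℝ => (t - c) / n) := (contDiff_id.sub contDiff_const).div_const n
  exact Complex.ofRealCLM.contDiff.comp ((bmp_smooth (n := 2)).comp h1)

lemma A0_smooth (k c n : ℝ) : ContDiff ℝ 2 (A0 k c n) := by
  have h1 : ContDiff ℝ 2 (fun t : ℝ => Complex.exp (k * t * Complex.I)) :=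
    ((contDiff_const.mul Complex.ofRealCLM.contDiff).mul contDiff_const).cexp
  exact h1.mul (q0_smooth c n)

lemma wf_smooth (k c n : ℝ) : ContDiff ℝ 2 (wf k c n) :=
  ((A0_smooth k c n).comp contDiff_fst).mul ((q0_smooth 0 n).comp contDiff_snd)

lemma wf_d1 (k c n : ℝ) : d1 (wf k c n) = fun x => A1 k c n x.1 * q0 0 n x.2 := by
  funext x
  exact d1_prod (A0_d k c n x.1) (q0_d 0 n x.2)

lemma wf_d2 (k c n : ℝ) : d2 (wf k c n) = fun x => A0 k c n x.1 * q1 0 n x.2 := by
  funext x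
  exact d2_prod (A0_d k c n x.1) (q0_d 0 n x.2)

lemma wf_mlap (k c n : ℝ) (x : ℝ × ℝ) : mlap (wf k c n) x - (k:ℂ) ^ 2 * wf k c n x =
    -(Complex.exp (k * x.1 * Complex.I) * ((2 * k * Complex.I * q1 c n x.1 + q2 c n x.1) * q0 0 n x.2 + q0 c n x.1 * q2 0 n x.2)) := by
  rw [mlap, wf_d1, wf_d2]
  have e1 : d1 (fun x : ℝ × ℝ => A1 k c n x.1 * q0 0 n x.2) x = A2 k c n x.1 * q0 0 n x.2 := d1_prod (A1_d k c n x.1) (q0_d 0 n x.2)
  have e2 : d2 (fun x : ℝ × ℝ => A0 k c n x.1 * q1 0 n x.2) x = A0 k c n x.1 * q2 0 n x.2 := d2_prod (A0_d k c n x.1) (q1_d 0 n x.2)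
  rw [e1, e2, wf, A2, A0]
  ring

lemma ex_norm (k t : ℝ) : ‖Complex.exp (k * t * Complex.I)‖ = 1 := by
  have : ((k * t : ℝ) : ℂ) * Complex.I = k * t * Complex.I := by push_cast; ring
  rw [← this, Complex.norm_exp_ofReal_mul_I]

lemma q0_norm (c n t : ℝ) : ‖q0 c n t‖ ≤ 1 := by
  rw [q0, Complex.norm_real]
  exact bmp_abs _

lemma div_out {c n t : ℝ} (hn : 0 < n) (h : n < |t - c|) : 1 < |(t - c) / n| := by
  rw [abs_div, abs_of_pos hn, one_lt_div hn]
  exact h

/-- the residual is small -/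
lemma res_bound (k : ℝ) : ∃ D : ℝ, 0 ≤ D ∧ ∀ c n : ℝ, 1 ≤ n → ∀ x : ℝ × ℝ,
    ‖mlap (wf k c n) x - (k:ℂ) ^ 2 * wf k c n x‖ ≤ D / n := by
  obtain ⟨P, hP, h1, h2⟩ := b_bounds
  refine ⟨2 * |k| * P + P + P, by positivity, fun c n hn x => ?_⟩
  have hn0 : 0 < n := by linarith
  have n1 : ∀ c t, ‖q1 c n t‖ ≤ P / n := by
    intro c t
    rw [q1, Complex.norm_real, Real.norm_eq_abs, abs_div, abs_of_pos hn0]
    gcongr
    exact h1 _
  have n2 : ∀ c t, ‖q2 c n t‖ ≤ P / n := by
    intro c t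
    rw [q2, Complex.norm_real, Real.norm_eq_abs, abs_div, abs_div, abs_of_pos hn0]
    have : |b2 ((t - c) / n)| / n ≤ P / n := by
      gcongr
      exact h2 _
    refine le_trans ?_ this
    exact div_le_self (by positivity) hn
  rw [wf_mlap, norm_neg, norm_mul, ex_norm, one_mul]
  calc _ ≤ ‖(2 * k * Complex.I * q1 c n x.1 + q2 c n x.1) * q0 0 n x.2‖ + ‖q0 c n x.1 * q2 0 n x.2‖ := norm_add_le _ _
    _ ≤ (2 * |k| * (P / n) + P / n) * 1 + 1 * (P / n) := by
        rw [norm_mul, norm_mul]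
        gcongr
        · refine (norm_add_le _ _).trans (add_le_add ?_ (n2 _ _))
          rw [norm_mul, norm_mul, norm_mul, Complex.norm_I, mul_one, Complex.norm_real, Complex.norm_ofNat, Real.norm_eq_abs]
          gcongr
          exact n1 _ _
        · exact q0_norm _ _ _
        · exact q0_norm _ _ _
        · exact n2 _ _
    _ = _ := by ring

lemma wf_out {k c n : ℝ} (hn : 0 < n) {x : ℝ × ℝ} (h : x ∉ Icc (c - n) (c + n) ×ˢ Icc (-n) n) :
    wf k c n x = 0 ∧ mlap (wf k c n) x - (k:ℂ) ^ 2 * wf k c n x = 0 := by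
  have hor : n < |x.1 - c| ∨ n < |x.2 - 0| := by
    by_contra hcon
    push Not at hcon
    apply h
    have a1 := abs_le.1 hcon.1
    have a2 := abs_le.1 hcon.2
    exact ⟨⟨by linarith [a1.1], by linarith [a1.2]⟩, ⟨by linarith [a2.1], by linarith [a2.2]⟩⟩
  rw [wf_mlap, wf, A0]
  rcases hor with ho | ho
  · have := bmp_out (div_out hn ho)
    simp only [q0, q1, q2, this.1, this.2.1, this.2.2]
    simp
  · have := bmp_out (div_out hn ho)
    simp only [q0, q1, q2, this.1, this.2.1, this.2.2]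
    simp

lemma wf_one {k c n : ℝ} (hn : 0 < n) {x : ℝ × ℝ} (h : x ∈ Icc (c - n/2) (c + n/2) ×ˢ Icc (-(n/2)) (n/2)) :
    ‖wf k c n x‖ = 1 := by
  have h1 : |(x.1 - c) / n| ≤ 1/2 := by
    rw [abs_div, abs_of_pos hn, div_le_iff₀ hn, abs_le]
    constructor
    · linarith [h.1.1]
    · linarith [h.1.2]
  have h2 : |(x.2 - 0) / n| ≤ 1/2 := by
    rw [abs_div, abs_of_pos hn, div_le_iff₀ hn, abs_le]
    constructor
    · linarith [h.2.1]
    · linarith [h.2.2]
  rw [wf, A0, norm_mul, norm_mul, ex_norm, q0, q0, bmp_one h1, bmp_one h2]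
  simp

lemma wf_compact {k c n : ℝ} (hn : 0 < n) : HasCompactSupport (wf k c n) := by
  refine HasCompactSupport.of_support_subset_isCompact (isCompact_Icc.prod isCompact_Icc : IsCompact (Icc (c - n) (c + n) ×ˢ Icc (-n) n)) ?_
  intro x hx
  by_contra h
  exact hx (wf_out hn h).1

lemma wf_tsupport {k c n : ℝ} (hn : 0 < n) : tsupport (wf k c n) ⊆ Icc (c - n) (c + n) ×ˢ Icc (-n) n := by
  refine closure_minimal ?_ (isClosed_Icc.prod isClosed_Icc)
  intro x hx
  by_contra h
  exact hx (wf_out hn h).1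

lemma vol_box {a b c d : ℝ} (h1 : a ≤ b) (h2 : c ≤ d) : (volume : Measure (ℝ × ℝ)).real (Icc a b ×ˢ Icc c d) = (b - a) * (d - c) := by
  rw [Measure.volume_eq_prod, Measure.real, Measure.prod_prod, Real.volume_Icc, Real.volume_Icc, ENNReal.toReal_mul,
    ENNReal.toReal_ofReal (by linarith), ENNReal.toReal_ofReal (by linarith)]

/-- **The half-line belongs to the spectrum.** -/
theorem weyl {γ : ℝ → ℝ × ℝ} (hγ : IsArc γ) (a : ℝ) {z : ℂ} (hz : 0 ≤ z.re ∧ z.im = 0) : ¬ InResolvent γ a z := by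
  rintro ⟨-, C, hC⟩
  set k := Real.sqrt z.re with hk
  have hzk : z = (k:ℂ) ^ 2 := by
    apply Complex.ext
    · rw [← Complex.ofReal_pow, Complex.ofReal_re, hk, Real.sq_sqrt hz.1]
    · rw [← Complex.ofReal_pow, Complex.ofReal_im, hz.2]
  obtain ⟨D, hD, hres⟩ := res_bound k
  obtain ⟨R, hR⟩ := isCompact_Icc.exists_bound_of_continuousOn (s := Icc (0:ℝ) 1) (f := γ) hγ.smooth.continuous.continuousOn
  have key : ∀ n : ℝ, 1 ≤ n → n ≤ |C| * (2 * D) := by
    intro n hn
    have hn0 : 0 < n := by linarith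
    set c := R + n + 1 with hc
    have hoff : Off γ (wf k c n) := by
      refine ⟨wf_smooth k c n, wf_compact hn0, fun t ht h => ?_⟩
      have h1 := (wf_tsupport hn0 h).1.1
      have h2 := hR t ht
      have h3 : (γ t).1 ≤ ‖γ t‖ := (le_abs_self _).trans (by rw [Prod.norm_def]; exact le_max_left _ _)
      linarith
    have hin := off_inOp a hoff
    set Φ := hoff.c0.toLp (wf k c n) with hΦ
    set Ψ := hoff.ml.toLp _ with hΨ
    have e1 : Ψ = (Ψ - z • Φ) + z • Φ := by rw [sub_add_cancel]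
    rw [e1] at hin
    have hb := hC _ _ hin
    have hΦn : n ≤ ‖Φ‖ := by
      have h0 : n ^ 2 ≤ ‖Φ‖ ^ 2 := by
        rw [hΦ, toLp_norm_sq]
        have hi : Integrable (fun x => ‖wf k c n x‖ ^ 2) := (memLp_two_iff_integrable_sq_norm hoff.c0.1).1 hoff.c0
        calc n ^ 2 = ∫ x, (Icc (c - n/2) (c + n/2) ×ˢ Icc (-(n/2)) (n/2)).indicator (fun _ : ℝ × ℝ => (1:ℝ)) x := by
              rw [integral_indicator (measurableSet_Icc.prod measurableSet_Icc), setIntegral_const, vol_box (by linarith) (by linarith)]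
              simp
              ring
          _ ≤ _ := by
              refine integral_mono_of_nonneg (Eventually.of_forall fun x => indicator_nonneg (fun _ _ => zero_le_one) x) hi (Eventually.of_forall fun x => ?_)
              by_cases hx : x ∈ Icc (c - n/2) (c + n/2) ×ˢ Icc (-(n/2)) (n/2)
              · simp only [indicator_of_mem hx]
                rw [wf_one hn0 hx]
                norm_num
              · simp only [indicator_of_notMem hx]
                exact sq_nonneg _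
      exact le_of_sq_le_sq h0 (norm_nonneg _)
    have hΨn : ‖Ψ - z • Φ‖ ≤ 2 * D := by
      have hm : MemLp (fun x => mlap (wf k c n) x - (k:ℂ) ^ 2 * wf k c n x) 2 (volume : Measure (ℝ × ℝ)) :=
        hoff.ml.sub (hoff.c0.const_mul _)
      have he : Ψ - z • Φ = hm.toLp _ := by
        refine Lp.ext ?_
        filter_upwards [hm.coeFn_toLp, Lp.coeFn_sub Ψ (z • Φ), Lp.coeFn_smul z Φ, hoff.ml.coeFn_toLp, hoff.c0.coeFn_toLp] with x g1 g2 g3 g4 g5
        rw [g1, g2, Pi.sub_apply, g3, Pi.smul_apply, g4, g5, smul_eq_mul, hzk]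
      have h0 : ‖Ψ - z • Φ‖ ^ 2 ≤ (2 * D) ^ 2 := by
        rw [he, toLp_norm_sq]
        have hfin : volume (Icc (c - n) (c + n) ×ˢ Icc (-n) n) ≠ ⊤ := (isCompact_Icc.prod isCompact_Icc).measure_lt_top.ne
        calc ∫ x, ‖mlap (wf k c n) x - (k:ℂ) ^ 2 * wf k c n x‖ ^ 2
            ≤ ∫ x, (Icc (c - n) (c + n) ×ˢ Icc (-n) n).indicator (fun _ : ℝ × ℝ => (D / n) ^ 2) x := by
              refine integral_mono_of_nonneg (Eventually.of_forall fun x => sq_nonneg _) ?_ (Eventually.of_forall fun x => ?_)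
              · rw [integrable_indicator_iff (measurableSet_Icc.prod measurableSet_Icc)]
                exact integrableOn_const hfin
              · by_cases hx : x ∈ Icc (c - n) (c + n) ×ˢ Icc (-n) n
                · simp only [indicator_of_mem hx]
                  gcongr
                  exact hres c n hn x
                · simp only [indicator_of_notMem hx]
                  rw [(wf_out hn0 hx).2]
                  simp
          _ = (2 * D) ^ 2 := by
              rw [integral_indicator (measurableSet_Icc.prod measurableSet_Icc), setIntegral_const, vol_box (by linarith) (by linarith)]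
              rw [smul_eq_mul]
              field_simp
              ring
      exact le_of_sq_le_sq h0 (by positivity)
    calc n ≤ ‖Φ‖ := hΦn
      _ ≤ C * ‖Ψ - z • Φ‖ := hb
      _ ≤ |C| * (2 * D) := by
          gcongr
          exact le_abs_self C
  have h1 := key (|C| * (2 * D) + 1) (by have : 0 ≤ |C| * (2 * D) := by positivity
                                         linarith)
  linarith

end Pool.Agent.Q233.DP
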